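import Mathlib

/-!
# Integers without divisors in a thin set have positive upper density
-/

set_option autoImplicit false

namespace Pool.Agent.helper60.PC

open Finset

/-- the harmonic sum over the members of `[1, X]` divisible by no member of `B` -/
noncomputable def hs (B : Finset ℕ) (X : ℕ) : ℝ :=
  ∑ n ∈ (Icc 1 X).filter (fun n => ∀ b ∈ B, ¬ b ∣ n), (1 : ℝ) / n

lemma hs_empty (X : ℕ) : hs ∅ X = ∑ n ∈ Icc 1 X, (1 : ℝ) / n := by
  unfold hs
  congr 1
  ext n
  simp

lemma hs_nonneg (B : Finset ℕ) (X : ℕ) : 0 ≤ hs B X :=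
  sum_nonneg fun n _ => by positivity

/-- adding one more divisor -/
lemma hs_insert (B : Finset ℕ) (b X : ℕ) (hb : 2 ≤ b) :
    (1 - 1 / (b : ℝ)) * hs B X ≤ hs (insert b B) X := by
  have hb0 : (0 : ℝ) < b := by positivity
  have h1 : hs B X = hs (insert b B) X +
      ∑ n ∈ ((Icc 1 X).filter (fun n => ∀ b ∈ B, ¬ b ∣ n)).filter (fun n => b ∣ n), (1 : ℝ) / n := by
    unfold hs
    rw [← sum_filter_add_sum_filter_not ((Icc 1 X).filter (fun n => ∀ b ∈ B, ¬ b ∣ n))
      (fun n => ¬ b ∣ n)]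
    congr 1
    · rw [filter_filter]
      congr 1
      ext n
      simp only [mem_filter, mem_insert, forall_eq_or_imp]
      tauto
    · congr 1
      ext n
      simp
  have h2 : ∑ n ∈ ((Icc 1 X).filter (fun n => ∀ b ∈ B, ¬ b ∣ n)).filter (fun n => b ∣ n),
      (1 : ℝ) / n ≤ (1 / (b : ℝ)) * hs B X := by
    unfold hs
    rw [mul_sum]
    have h3 : ∀ n ∈ ((Icc 1 X).filter (fun n => ∀ b ∈ B, ¬ b ∣ n)).filter (fun n => b ∣ n),
        (1 : ℝ) / n = (1 / (b : ℝ)) * (1 / ((n / b : ℕ) : ℝ)) := by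
      intro n hn
      obtain ⟨m, rfl⟩ := (mem_filter.1 hn).2
      have hb' : 0 < b := by omega
      rw [Nat.mul_div_cancel_left m hb', Nat.cast_mul]
      field_simp
    rw [sum_congr rfl h3]
    rw [← sum_image (f := fun m : ℕ => (1 / (b : ℝ)) * (1 / (m : ℝ))) (g := fun n : ℕ => n / b)]
    · refine sum_le_sum_of_subset_of_nonneg ?_ fun n _ _ => by positivity
      intro m hm
      obtain ⟨n, hn, rfl⟩ := mem_image.1 hm
      obtain ⟨hn1, hn2⟩ := mem_filter.1 hn
      obtain ⟨m, rfl⟩ := hn2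
      obtain ⟨hn3, hn4⟩ := mem_filter.1 hn1
      have hb' : 0 < b := by omega
      simp only [Nat.mul_div_cancel_left m hb', mem_filter, mem_Icc]
      rw [mem_Icc] at hn3
      refine ⟨⟨?_, ?_⟩, fun c hc hcm => hn4 c hc (hcm.mul_left b)⟩
      · rcases Nat.eq_zero_or_pos m with h | h
        · subst h; omega
        · exact h
      · calc m ≤ b * m := Nat.le_mul_of_pos_left m hb'
          _ ≤ X := hn3.2
    · intro x hx y hy hxy
      obtain ⟨m, rfl⟩ := (mem_filter.1 hx).2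
      obtain ⟨k, rfl⟩ := (mem_filter.1 hy).2
      have hb' : 0 < b := by omega
      simp only [Nat.mul_div_cancel_left _ hb'] at hxy
      rw [hxy]
  rw [sub_mul, one_mul]
  linarith

/-- **Heilbronn-Rohrbach inequality**, logarithmic form. -/
lemma hs_ge (B : Finset ℕ) (X : ℕ) (hB : ∀ b ∈ B, 2 ≤ b) :
    (∏ b ∈ B, (1 - 1 / (b : ℝ))) * ∑ n ∈ Icc 1 X, (1 : ℝ) / n ≤ hs B X := by
  induction B using Finset.induction_on with
  | empty => rw [prod_empty, one_mul, hs_empty]
  | insert b B hb ih =>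
    rw [prod_insert hb, mul_assoc]
    have h2 : (2 : ℝ) ≤ b := by exact_mod_cast hB b (mem_insert_self b B)
    have h3 : (0 : ℝ) ≤ 1 - 1 / (b : ℝ) := by
      have : 1 / (b : ℝ) ≤ 1 / 2 := one_div_le_one_div_of_le (by norm_num) h2
      linarith
    calc (1 - 1 / (b : ℝ)) * ((∏ x ∈ B, (1 - 1 / (x : ℝ))) * ∑ n ∈ Icc 1 X, (1 : ℝ) / n)
        ≤ (1 - 1 / (b : ℝ)) * hs B X :=
          mul_le_mul_of_nonneg_left (ih fun c hc => hB c (mem_insert_of_mem hc)) h3
      _ ≤ hs (insert b B) X := hs_insert B b X (hB b (mem_insert_self b B))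

/-- the product over the squares -/
lemma prod_sq (X : ℕ) :
    (1 : ℝ) / 2 ≤ ∏ b ∈ (Icc 2 (X + 1)).image (fun k : ℕ => k ^ 2), (1 - 1 / (b : ℝ)) := by
  rw [prod_image fun x _ y _ h => Nat.pow_left_injective (n := 2) (by norm_num) h]
  have key : ∀ X : ℕ, ∏ k ∈ Icc 2 (X + 1), (1 - 1 / ((k ^ 2 : ℕ) : ℝ)) =
      ((X : ℝ) + 2) / (2 * ((X : ℝ) + 1)) := by
    intro X
    induction X with
    | zero => simp
    | succ n ih =>
      rw [← insert_Icc_right_eq_Icc_add_one (by omega : 2 ≤ n + 1 + 1), prod_insert (by simp), ih]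
      push_cast
      have h1 : (n : ℝ) + 1 ≠ 0 := by positivity
      have h2 : (n : ℝ) + 1 + 1 ≠ 0 := by positivity
      field_simp
      ring
  rw [key X, div_le_div_iff₀ (by norm_num) (by positivity)]
  linarith

lemma one_sub_ge_exp {t : ℝ} (h0 : 0 ≤ t) (h1 : t ≤ 1 / 2) : Real.exp (-(2 * t)) ≤ 1 - t := by
  have h2 : 1 + 2 * t ≤ Real.exp (2 * t) := by
    have := Real.add_one_le_exp (2 * t); linarith
  rw [Real.exp_neg, inv_le_comm₀ (Real.exp_pos _) (by linarith)]
  refine le_trans ?_ h2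
  rw [inv_le_comm₀ (by linarith) (by linarith), inv_le_iff_one_le_mul₀ (by linarith)]
  nlinarith

/-- the members of `S` up to `X` -/
noncomputable def cn (S : Set ℕ) (X : ℕ) : ℕ := (S ∩ Set.Icc 1 X).ncard

lemma cn_le (S : Set ℕ) (X : ℕ) : cn S X ≤ X := by
  unfold cn
  calc (S ∩ Set.Icc 1 X).ncard ≤ (Set.Icc 1 X).ncard :=
        Set.ncard_le_ncard Set.inter_subset_right (Set.finite_Icc 1 X)
    _ = X := by rw [Set.ncard_eq_toFinset_card']; simp

open scoped Classical in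
lemma cn_succ (S : Set ℕ) (X : ℕ) : cn S (X + 1) = cn S X + if X + 1 ∈ S then 1 else 0 := by
  unfold cn
  have h0 : Set.Icc 1 (X + 1) = insert (X + 1) (Set.Icc 1 X) := by
    ext n; simp only [Set.mem_Icc, Set.mem_insert_iff]; omega
  by_cases h : X + 1 ∈ S
  · rw [if_pos h, h0, Set.inter_insert_of_mem h]
    rw [Set.ncard_insert_of_notMem (by simp) ((Set.finite_Icc 1 X).inter_of_right S)]
  · rw [if_neg h, h0, Set.inter_insert_of_notMem h, add_zero]

open scoped Classical in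
/-- partial summation -/
lemma abel (S : Set ℕ) (X : ℕ) :
    ∑ n ∈ (Icc 1 (X + 1)).filter (fun n => n ∈ S), (1 : ℝ) / n =
      (cn S (X + 1) : ℝ) / (X + 1) +
        ∑ m ∈ range X, (cn S (m + 1) : ℝ) / (((m : ℝ) + 1) * ((m : ℝ) + 2)) := by
  induction X with
  | zero =>
    rw [cn_succ]
    have h0 : cn S 0 = 0 := Nat.le_zero.1 (cn_le S 0)
    by_cases h : 1 ∈ S
    · simp [h0, h, filter_singleton]
    · simp [h0, h, filter_singleton]
  | succ n ih =>
    rw [← insert_Icc_right_eq_Icc_add_one (by omega : 1 ≤ n + 1 + 1), filter_insert, sum_range_succ]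
    rw [cn_succ S (n + 1)]
    have h1 : (n : ℝ) + 1 ≠ 0 := by positivity
    have h2 : (n : ℝ) + 2 ≠ 0 := by positivity
    have h3 : (n : ℝ) + 1 + 1 ≠ 0 := by positivity
    by_cases h : n + 1 + 1 ∈ S
    · rw [if_pos h, if_pos h, sum_insert (by simp), ih]
      push_cast
      field_simp
      ring
    · rw [if_neg h, if_neg h, ih]
      push_cast
      field_simp
      ring

lemma harm (X : ℕ) : ∑ n ∈ Icc 1 X, (1 : ℝ) / n = ∑ i ∈ range X, 1 / ((i : ℝ) + 1) := by
  induction X with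
  | zero => simp
  | succ n ih =>
    rw [← insert_Icc_right_eq_Icc_add_one (by omega : 1 ≤ n + 1), sum_insert (by simp),
      sum_range_succ, ih]
    push_cast
    ring

/-- the squarefree numbers without prime factors in `R` -/
def SR (R : Set ℕ) : Set ℕ := {n | Squarefree n ∧ ∀ p ∈ R, ¬ p ∣ n}

open scoped Classical in
lemma log_dens (R : Set ℕ) (hR : ∀ p ∈ R, p.Prime)
    (hs' : Summable (R.indicator (fun p : ℕ => (1 : ℝ) / p))) (X : ℕ) :
    (Real.exp (-(2 * ∑' p, R.indicator (fun p : ℕ => (1 : ℝ) / p) p)) * (1 / 2)) *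
      ∑ n ∈ Icc 1 X, (1 : ℝ) / n ≤ ∑ n ∈ (Icc 1 X).filter (fun n => n ∈ SR R), (1 : ℝ) / n := by
  set P : Finset ℕ := (range (X + 1)).filter (fun p => p ∈ R) with hP
  set Q : Finset ℕ := (Icc 2 (X + 1)).image (fun k : ℕ => k ^ 2) with hQ
  have hPp : ∀ p ∈ P, p.Prime := fun p hp => hR p (mem_filter.1 hp).2
  have hdisj : Disjoint P Q := by
    rw [Finset.disjoint_left]
    intro p hp hq
    obtain ⟨k, _, rfl⟩ := mem_image.1 hq
    exact Nat.Prime.not_prime_pow (le_refl 2) (hPp _ hp)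
  have hB : ∀ b ∈ P ∪ Q, 2 ≤ b := by
    intro b hb
    rcases mem_union.1 hb with hb | hb
    · exact (hPp b hb).two_le
    · obtain ⟨k, hk, rfl⟩ := mem_image.1 hb
      have := (mem_Icc.1 hk).1
      nlinarith
  have h1 := hs_ge (P ∪ Q) X hB
  rw [prod_union hdisj] at h1
  have h2 : Real.exp (-(2 * ∑' p, R.indicator (fun p : ℕ => (1 : ℝ) / p) p)) ≤
      ∏ b ∈ P, (1 - 1 / (b : ℝ)) := by
    calc Real.exp (-(2 * ∑' p, R.indicator (fun p : ℕ => (1 : ℝ) / p) p))
        ≤ Real.exp (∑ p ∈ P, -(2 * (1 / (p : ℝ)))) := by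
          apply Real.exp_le_exp.2
          rw [sum_neg_distrib, ← mul_sum]
          have h3 : ∑ p ∈ P, (1 : ℝ) / p = ∑ p ∈ P, R.indicator (fun p : ℕ => (1 : ℝ) / p) p := by
            refine sum_congr rfl fun p hp => ?_
            rw [Set.indicator_of_mem (mem_filter.1 hp).2]
          have h4 : ∑ p ∈ P, R.indicator (fun p : ℕ => (1 : ℝ) / p) p ≤
              ∑' p, R.indicator (fun p : ℕ => (1 : ℝ) / p) p :=
            hs'.sum_le_tsum P fun p _ => Set.indicator_nonneg (fun _ _ => by positivity) p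
          rw [h3]
          linarith
      _ = ∏ p ∈ P, Real.exp (-(2 * (1 / (p : ℝ)))) := Real.exp_sum _ _
      _ ≤ ∏ b ∈ P, (1 - 1 / (b : ℝ)) := by
          refine prod_le_prod (fun p _ => (Real.exp_pos _).le) fun p hp => ?_
          have h5 : (2 : ℝ) ≤ p := by exact_mod_cast (hPp p hp).two_le
          exact one_sub_ge_exp (by positivity) (one_div_le_one_div_of_le (by norm_num) h5)
  have h3 : hs (P ∪ Q) X ≤ ∑ n ∈ (Icc 1 X).filter (fun n => n ∈ SR R), (1 : ℝ) / n := by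
    unfold hs
    refine sum_le_sum_of_subset_of_nonneg ?_ fun n _ _ => by positivity
    intro n hn
    obtain ⟨hn1, hn2⟩ := mem_filter.1 hn
    rw [mem_Icc] at hn1
    refine mem_filter.2 ⟨mem_Icc.2 hn1, ?_, ?_⟩
    · rw [Nat.squarefree_iff_prime_squarefree]
      intro q hq hqn
      have h4 : q * q ≤ n := Nat.le_of_dvd (by omega) hqn
      have h5 : q ≤ q * q := Nat.le_mul_of_pos_left q hq.pos
      refine hn2 (q ^ 2) (mem_union_right _ (mem_image.2 ⟨q, mem_Icc.2 ⟨hq.two_le, by omega⟩, rfl⟩)) ?_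
      rw [pow_two]
      exact hqn
    · intro p hp hpn
      have h4 : p ≤ n := Nat.le_of_dvd (by omega) hpn
      exact hn2 p (mem_union_left _ (mem_filter.2 ⟨mem_range.2 (by omega), hp⟩)) hpn
  have h4 : (0 : ℝ) ≤ ∑ n ∈ Icc 1 X, (1 : ℝ) / n := sum_nonneg fun n _ => by positivity
  refine le_trans ?_ (h1.trans h3)
  refine mul_le_mul_of_nonneg_right ?_ h4
  exact mul_le_mul h2 (prod_sq X) (by norm_num) ((Real.exp_pos _).le.trans h2)

open scoped Classical in
/-- **Positive upper density.** -/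
theorem dens (R : Set ℕ) (hR : ∀ p ∈ R, p.Prime)
    (hs' : Summable (R.indicator (fun p : ℕ => (1 : ℝ) / p))) :
    ∃ c > (0 : ℝ), ∀ N : ℕ, ∃ M ≥ N, c * M ≤ (cn (SR R) M : ℝ) := by
  set c0 : ℝ := Real.exp (-(2 * ∑' p, R.indicator (fun p : ℕ => (1 : ℝ) / p) p)) * (1 / 2) with hc0
  have hc0p : 0 < c0 := by positivity
  refine ⟨c0 / 2, by positivity, ?_⟩
  by_contra hcon
  push Not at hcon
  obtain ⟨N, hN⟩ := hcon
  have key : ∀ X : ℕ, ∑ i ∈ range (X + 1), 1 / ((i : ℝ) + 1) ≤ 2 * (1 + N) / c0 := by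
    intro X
    have h1 := log_dens R hR hs' (X + 1)
    rw [← hc0, abel (SR R) X, harm] at h1
    have h2 : (cn (SR R) (X + 1) : ℝ) / (X + 1) ≤ 1 := by
      rw [div_le_one (by positivity)]
      exact_mod_cast cn_le (SR R) (X + 1)
    have h3 : ∀ m ∈ range X, (cn (SR R) (m + 1) : ℝ) / (((m : ℝ) + 1) * ((m : ℝ) + 2)) ≤
        (if m < N then 1 else 0) + c0 / 2 * (1 / ((m : ℝ) + 1)) := by
      intro m _
      by_cases hm : m < N
      · rw [if_pos hm]
        have h4 : (cn (SR R) (m + 1) : ℝ) ≤ (m : ℝ) + 1 := by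
          exact_mod_cast cn_le (SR R) (m + 1)
        have h5 : (cn (SR R) (m + 1) : ℝ) / (((m : ℝ) + 1) * ((m : ℝ) + 2)) ≤ 1 := by
          rw [div_le_one (by positivity)]
          nlinarith [(Nat.cast_nonneg m : (0 : ℝ) ≤ m)]
        have h6 : 0 ≤ c0 / 2 * (1 / ((m : ℝ) + 1)) := by positivity
        linarith
      · rw [if_neg hm, zero_add]
        have h4 := (hN (m + 1) (by omega)).le
        push_cast at h4
        rw [div_le_iff₀ (by positivity)]
        have h5 : c0 / 2 * (1 / ((m : ℝ) + 1)) * (((m : ℝ) + 1) * ((m : ℝ) + 2)) =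
            c0 / 2 * ((m : ℝ) + 2) := by
          field_simp
        rw [h5]
        refine h4.trans ?_
        refine mul_le_mul_of_nonneg_left (by linarith) (by positivity)
    have h4 := sum_le_sum h3
    rw [sum_add_distrib, ← mul_sum] at h4
    have h5 : ∑ m ∈ range X, (if m < N then (1 : ℝ) else 0) ≤ N := by
      rw [← sum_filter, sum_const, nsmul_eq_mul, mul_one]
      have : ((range X).filter (fun m => m < N)).card ≤ (range N).card :=
        card_le_card fun m hm => mem_range.2 (mem_filter.1 hm).2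
      rw [card_range] at this
      exact_mod_cast this
    have h6 : ∑ i ∈ range X, 1 / ((i : ℝ) + 1) ≤ ∑ i ∈ range (X + 1), 1 / ((i : ℝ) + 1) := by
      rw [sum_range_succ]
      have : (0 : ℝ) ≤ 1 / ((X : ℝ) + 1) := by positivity
      linarith
    have h7 : c0 / 2 * ∑ i ∈ range X, 1 / ((i : ℝ) + 1) ≤
        c0 / 2 * ∑ i ∈ range (X + 1), 1 / ((i : ℝ) + 1) :=
      mul_le_mul_of_nonneg_left h6 (by positivity)
    rw [le_div_iff₀ hc0p]
    nlinarith
  have h8 := Real.tendsto_sum_range_one_div_nat_succ_atTop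
  rw [Filter.tendsto_atTop_atTop] at h8
  obtain ⟨i, hi⟩ := h8 (2 * (1 + N) / c0 + 1)
  have h9 := hi (i + 1) (by omega)
  have h10 := key i
  linarith

end Pool.Agent.helper60.PC
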