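import Mathlib
import Pool.Agent.helper60.PC.Dens

/-!
# `1 / n` is a convolution of `n ^ (-s)` and a nonnegative function, `s > 1`
-/

set_option autoImplicit false

namespace Pool.Agent.helper60.PC

open Finset ArithmeticFunction
open scoped ArithmeticFunction.zeta

/-- `n ^ (1 - s)` -/
noncomputable def tau (s : ℝ) : ArithmeticFunction ℝ :=
  ⟨fun n => if n = 0 then 0 else (n : ℝ) ^ (1 - s), by simp⟩

lemma tau_apply {s : ℝ} {n : ℕ} (hn : n ≠ 0) : tau s n = (n : ℝ) ^ (1 - s) := by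
  simp [tau, hn]

lemma tau_mult (s : ℝ) : (tau s).IsMultiplicative := by
  rw [IsMultiplicative.iff_ne_zero]
  refine ⟨by rw [tau_apply one_ne_zero]; simp, fun {m n} hm hn _ => ?_⟩
  rw [tau_apply hm, tau_apply hn, tau_apply (mul_ne_zero hm hn), Nat.cast_mul,
    Real.mul_rpow (Nat.cast_nonneg m) (Nat.cast_nonneg n)]

lemma tau_pow {s : ℝ} {p : ℕ} (hp : p.Prime) (i : ℕ) : tau s (p ^ i) = ((p : ℝ) ^ (1 - s)) ^ i := by
  rw [tau_apply (pow_ne_zero i hp.ne_zero), Nat.cast_pow, ← Real.rpow_natCast, ← Real.rpow_natCast,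
    ← Real.rpow_mul (Nat.cast_nonneg p), ← Real.rpow_mul (Nat.cast_nonneg p), mul_comm]

/-- the product of the `1 - p ^ (1 - s)` over the prime factors -/
noncomputable def psi (s : ℝ) : ArithmeticFunction ℝ :=
  ArithmeticFunction.prodPrimeFactors (fun p => 1 - (p : ℝ) ^ (1 - s))

lemma psi_mult (s : ℝ) : (psi s).IsMultiplicative := IsMultiplicative.prodPrimeFactors _

lemma psi_nonneg {s : ℝ} (hs : 1 < s) (n : ℕ) : 0 ≤ psi s n := by
  rcases Nat.eq_zero_or_pos n with h | h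
  · subst h; simp
  · unfold psi
    rw [prodPrimeFactors_apply h.ne']
    refine prod_nonneg fun p hp => ?_
    have h1 : (1 : ℝ) ≤ p := by exact_mod_cast (Nat.prime_of_mem_primeFactors hp).one_le
    have h2 := Real.rpow_le_one_of_one_le_of_nonpos h1 (by linarith : 1 - s ≤ 0)
    linarith

lemma psi_pow {s : ℝ} {p : ℕ} (hp : p.Prime) {i : ℕ} (hi : i ≠ 0) :
    psi s (p ^ i) = 1 - (p : ℝ) ^ (1 - s) := by
  unfold psi
  rw [prodPrimeFactors_apply (pow_ne_zero i hp.ne_zero), Nat.primeFactors_prime_pow hi hp]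
  simp

lemma conv_eq (s : ℝ) : tau s * psi s = ((ζ : ArithmeticFunction ℕ) : ArithmeticFunction ℝ) := by
  rw [IsMultiplicative.eq_iff_eq_on_prime_powers _ ((tau_mult s).mul (psi_mult s)) _
    isMultiplicative_zeta.natCast]
  intro p k hp
  rw [mul_apply, natCoe_apply, zeta_apply_ne (pow_ne_zero k hp.ne_zero), Nat.cast_one,
    Nat.sum_divisorsAntidiagonal (fun a b => tau s a * psi s b), Nat.sum_divisors_prime_pow hp,
    sum_range_succ]
  have h1 : ∀ i ∈ range k, tau s (p ^ i) * psi s (p ^ k / p ^ i) =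
      ((p : ℝ) ^ (1 - s)) ^ i * (1 - (p : ℝ) ^ (1 - s)) := by
    intro i hi
    rw [mem_range] at hi
    rw [Nat.pow_div hi.le hp.pos, tau_pow hp, psi_pow hp (by omega)]
  rw [sum_congr rfl h1, ← sum_mul, Nat.pow_div le_rfl hp.pos, Nat.sub_self, pow_zero, tau_pow hp,
    (psi_mult s).map_one]
  have h2 := geom_sum_mul_neg ((p : ℝ) ^ (1 - s)) k
  rw [h2]
  ring

lemma conv_sum (s : ℝ) {n : ℕ} (hn : n ≠ 0) :
    ∑ q ∈ n.divisorsAntidiagonal, (q.1 : ℝ) ^ (-s) * (psi s q.2 / q.2) = 1 / n := by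
  have h1 := congrArg (fun f : ArithmeticFunction ℝ => f n) (conv_eq s)
  simp only [mul_apply, natCoe_apply, zeta_apply_ne hn, Nat.cast_one] at h1
  rw [← h1, sum_div]
  refine sum_congr rfl fun q hq => ?_
  obtain ⟨h2, _⟩ := Nat.mem_divisorsAntidiagonal.1 hq
  have h3 : q.1 ≠ 0 := by rintro h; rw [h, zero_mul] at h2; exact hn h2.symm
  have h4 : q.2 ≠ 0 := by rintro h; rw [h, mul_zero] at h2; exact hn h2.symm
  have h5 : (0 : ℝ) < q.1 := Nat.cast_pos.2 (Nat.pos_of_ne_zero h3)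
  have h6 : (0 : ℝ) < q.2 := Nat.cast_pos.2 (Nat.pos_of_ne_zero h4)
  rw [tau_apply h3, ← h2, Nat.cast_mul, show (1 - s : ℝ) = -s + 1 by ring, Real.rpow_add h5,
    Real.rpow_one]
  field_simp

lemma pairs (N : ℕ) (g : ℕ × ℕ → ℝ) :
    ∑ n ∈ Icc 1 N, ∑ q ∈ n.divisorsAntidiagonal, g q =
      ∑ q ∈ ((Icc 1 N) ×ˢ (Icc 1 N)).filter (fun q => q.1 * q.2 ≤ N), g q := by
  rw [← sum_fiberwise_of_maps_to (t := Icc 1 N) (g := fun q : ℕ × ℕ => q.1 * q.2)]
  · refine sum_congr rfl fun n hn => ?_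
    rw [mem_Icc] at hn
    congr 1
    ext q
    simp only [Nat.mem_divisorsAntidiagonal, mem_filter, mem_product, mem_Icc]
    constructor
    · rintro ⟨h1, h2⟩
      have h3 : 1 ≤ q.1 := Nat.one_le_iff_ne_zero.2 (by rintro h; rw [h, zero_mul] at h1; omega)
      have h4 : 1 ≤ q.2 := Nat.one_le_iff_ne_zero.2 (by rintro h; rw [h, mul_zero] at h1; omega)
      have h5 : q.1 ≤ q.1 * q.2 := Nat.le_mul_of_pos_right _ h4
      have h6 : q.2 ≤ q.1 * q.2 := Nat.le_mul_of_pos_left _ h3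
      exact ⟨⟨⟨⟨h3, by omega⟩, ⟨h4, by omega⟩⟩, by omega⟩, h1⟩
    · rintro ⟨_, h2⟩
      exact ⟨h2, by omega⟩
  · intro q hq
    simp only [mem_filter, mem_product, mem_Icc] at hq ⊢
    exact ⟨Nat.mul_pos hq.1.1.1 hq.1.2.1, hq.2⟩

open scoped Classical in
/-- the upper bound for a divisor-closed set `U` -/
lemma upper {s : ℝ} (hs : 1 < s) (U : Set ℕ) (hU : ∀ n ∈ U, n ≠ 0 → ∀ d, d ∣ n → d ∈ U) (X : ℕ) :
    ∑ n ∈ (Icc 1 X).filter (fun n => n ∈ U), (1 : ℝ) / n ≤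
      (∑ d ∈ (Icc 1 X).filter (fun n => n ∈ U), (d : ℝ) ^ (-s)) *
        ∑ e ∈ Icc 1 X, psi s e / e := by
  have h1 : ∑ n ∈ (Icc 1 X).filter (fun n => n ∈ U), (1 : ℝ) / n ≤
      ∑ n ∈ Icc 1 X, ∑ q ∈ n.divisorsAntidiagonal,
        (if q.1 ∈ U then (q.1 : ℝ) ^ (-s) else 0) * (psi s q.2 / q.2) := by
    rw [sum_filter]
    refine sum_le_sum fun n hn => ?_
    rw [mem_Icc] at hn
    by_cases h : n ∈ U
    · rw [if_pos h, ← conv_sum s (by omega : n ≠ 0)]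
      refine le_of_eq (sum_congr rfl fun q hq => ?_)
      obtain ⟨h2, _⟩ := Nat.mem_divisorsAntidiagonal.1 hq
      rw [if_pos (hU n h (by omega) q.1 ⟨q.2, h2.symm⟩)]
    · rw [if_neg h]
      refine sum_nonneg fun q _ => mul_nonneg ?_ (div_nonneg (psi_nonneg hs _) (Nat.cast_nonneg _))
      split_ifs
      · exact Real.rpow_nonneg (Nat.cast_nonneg _) _
      · exact le_rfl
  refine h1.trans ?_
  have h2 : ∑ d ∈ (Icc 1 X).filter (fun n => n ∈ U), (d : ℝ) ^ (-s) =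
      ∑ d ∈ Icc 1 X, (if d ∈ U then (d : ℝ) ^ (-s) else 0) := sum_filter _ _
  rw [pairs X (fun q => (if q.1 ∈ U then (q.1 : ℝ) ^ (-s) else 0) * (psi s q.2 / q.2)), h2,
    sum_mul_sum, ← sum_product']
  refine sum_le_sum_of_subset_of_nonneg (Finset.filter_subset _ _) fun q _ _ => ?_
  refine mul_nonneg ?_ (div_nonneg (psi_nonneg hs _) (Nat.cast_nonneg _))
  split_ifs
  · exact Real.rpow_nonneg (Nat.cast_nonneg _) _
  · exact le_rfl

lemma lower {s : ℝ} (hs : 1 < s) (X Y : ℕ) :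
    (∑ d ∈ Icc 1 Y, (d : ℝ) ^ (-s)) * ∑ e ∈ Icc 1 X, psi s e / e ≤
      ∑ n ∈ Icc 1 (Y * X), (1 : ℝ) / n := by
  have h1 : ∑ n ∈ Icc 1 (Y * X), (1 : ℝ) / n =
      ∑ n ∈ Icc 1 (Y * X), ∑ q ∈ n.divisorsAntidiagonal, (q.1 : ℝ) ^ (-s) * (psi s q.2 / q.2) := by
    refine sum_congr rfl fun n hn => ?_
    rw [mem_Icc] at hn
    rw [conv_sum s (by omega : n ≠ 0)]
  rw [h1, pairs, sum_mul_sum, ← sum_product']
  refine sum_le_sum_of_subset_of_nonneg ?_ fun q _ _ =>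
    mul_nonneg (Real.rpow_nonneg (Nat.cast_nonneg _) _)
      (div_nonneg (psi_nonneg hs _) (Nat.cast_nonneg _))
  intro q hq
  simp only [mem_product, mem_Icc, mem_filter] at hq ⊢
  obtain ⟨⟨h2, h3⟩, h4, h5⟩ := hq
  have h6 : q.1 * q.2 ≤ Y * X := Nat.mul_le_mul h3 h5
  have h7 : q.1 ≤ q.1 * q.2 := Nat.le_mul_of_pos_right _ h4
  have h8 : q.2 ≤ q.1 * q.2 := Nat.le_mul_of_pos_left _ h2
  exact ⟨⟨⟨h2, by omega⟩, ⟨h4, by omega⟩⟩, h6⟩

/-- harmonic sums -/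
lemma harm_mul (X Y : ℕ) (hX : 1 ≤ X) :
    ∑ n ∈ Icc 1 ((Y + 1) * X), (1 : ℝ) / n ≤
      ∑ n ∈ Icc 1 X, (1 : ℝ) / n + ∑ n ∈ Icc 1 Y, (1 : ℝ) / n := by
  induction Y with
  | zero => simp
  | succ Y ih =>
    rw [← insert_Icc_right_eq_Icc_add_one (by omega : 1 ≤ Y + 1), sum_insert (by simp)]
    have h1 : Icc 1 ((Y + 1 + 1) * X) = Icc 1 ((Y + 1) * X) ∪ Ioc ((Y + 1) * X) ((Y + 1 + 1) * X) := by
      ext n
      simp only [mem_Icc, mem_union, mem_Ioc]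
      have : (Y + 1) * X ≤ (Y + 1 + 1) * X := Nat.mul_le_mul_right X (by omega)
      omega
    have h2 : Disjoint (Icc 1 ((Y + 1) * X)) (Ioc ((Y + 1) * X) ((Y + 1 + 1) * X)) := by
      rw [Finset.disjoint_left]
      intro n h3 h4
      rw [mem_Icc] at h3
      rw [mem_Ioc] at h4
      omega
    rw [h1, sum_union h2]
    have h5 : ∑ n ∈ Ioc ((Y + 1) * X) ((Y + 1 + 1) * X), (1 : ℝ) / n ≤ 1 / ((Y + 1 : ℕ) : ℝ) := by
      calc ∑ n ∈ Ioc ((Y + 1) * X) ((Y + 1 + 1) * X), (1 : ℝ) / n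
          ≤ ∑ n ∈ Ioc ((Y + 1) * X) ((Y + 1 + 1) * X), (1 : ℝ) / (((Y + 1) * X : ℕ) : ℝ) := by
            refine sum_le_sum fun n hn => ?_
            rw [mem_Ioc] at hn
            refine one_div_le_one_div_of_le ?_ ?_
            · exact_mod_cast Nat.mul_pos (by omega) hX
            · exact_mod_cast hn.1.le
        _ = 1 / ((Y + 1 : ℕ) : ℝ) := by
            rw [sum_const, Nat.card_Ioc, nsmul_eq_mul]
            have : (Y + 1 + 1) * X - (Y + 1) * X = X := by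
              rw [← Nat.sub_mul]; simp
            rw [this]
            have h6 : (X : ℝ) ≠ 0 := by
              have : (1 : ℝ) ≤ X := by exact_mod_cast hX
              positivity
            push_cast
            field_simp
    linarith

end Pool.Agent.helper60.PC
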