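import Mathlib
import Pool.Agent.helper60.PC.Conv

/-!
# The upper density of the complement of a set of multiples
-/

set_option autoImplicit false

namespace Pool.Agent.helper60.PC

open Finset

/-- the density of the integers divisible by no member of `F` -/
noncomputable def dl (F : Finset ℕ) : ℝ :=
  (((range (∏ f ∈ F, f)).filter (fun n => ∀ f ∈ F, ¬ f ∣ n)).card : ℝ) / ((∏ f ∈ F, f : ℕ) : ℝ)

/-- the integers divisible by no member of `F` -/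
def UF (F : Finset ℕ) : Set ℕ := {n | ∀ f ∈ F, ¬ f ∣ n}

lemma prod_pos' {F : Finset ℕ} (hF : ∀ f ∈ F, 1 ≤ f) : 0 < ∏ f ∈ F, f :=
  prod_pos fun f hf => hF f hf

lemma count_mul (F : Finset ℕ) (k : ℕ) :
    Nat.count (fun n => ∀ f ∈ F, ¬ f ∣ n) ((∏ f ∈ F, f) * k) =
      k * Nat.count (fun n => ∀ f ∈ F, ¬ f ∣ n) (∏ f ∈ F, f) := by
  induction k with
  | zero => simp
  | succ k ih =>
    rw [mul_add, mul_one, Nat.count_add, ih]
    have h1 : (fun j => ∀ f ∈ F, ¬ f ∣ (∏ f ∈ F, f) * k + j) = (fun n => ∀ f ∈ F, ¬ f ∣ n) := by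
      funext j
      refine propext (forall₂_congr fun f hf => ?_)
      rw [Nat.dvd_add_right ((dvd_prod_of_mem (fun f => f) hf).mul_right k)]
    simp_rw [h1]
    ring

lemma cn_UF (F : Finset ℕ) (M : ℕ) :
    cn (UF F) M = ((Icc 1 M).filter (fun n => ∀ f ∈ F, ¬ f ∣ n)).card := by
  unfold cn
  rw [← Set.ncard_coe_finset]
  congr 1
  ext n
  simp only [UF, Set.mem_inter_iff, Set.mem_ofPred_eq, Set.mem_Icc, coe_filter, mem_Icc]
  tauto

lemma dl_eq (F : Finset ℕ) : dl F =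
    (Nat.count (fun n => ∀ f ∈ F, ¬ f ∣ n) (∏ f ∈ F, f) : ℝ) / ((∏ f ∈ F, f : ℕ) : ℝ) := by
  unfold dl
  rw [Nat.count_eq_card_filter_range]

lemma dl_nonneg (F : Finset ℕ) : 0 ≤ dl F := by unfold dl; positivity

lemma cn_UF_le {F : Finset ℕ} (hF : ∀ f ∈ F, 1 ≤ f) (M : ℕ) :
    (cn (UF F) M : ℝ) ≤ dl F * (M + (∏ f ∈ F, f : ℕ)) := by
  have hL := prod_pos' hF
  rw [dl_eq, cn_UF]
  set L := ∏ f ∈ F, f with hLdef
  set p : ℕ → Prop := fun n => ∀ f ∈ F, ¬ f ∣ n with hp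
  have h1 : ((Icc 1 M).filter p).card ≤ Nat.count p (M + 1) := by
    rw [Nat.count_eq_card_filter_range]
    refine card_le_card fun n hn => ?_
    rw [mem_filter, mem_Icc] at hn
    exact mem_filter.2 ⟨mem_range.2 (by omega), hn.2⟩
  have h2 : Nat.count p (M + 1) ≤ Nat.count p (L * (M / L + 1)) :=
    Nat.count_monotone p (Nat.lt_mul_div_succ M hL)
  rw [count_mul F (M / L + 1)] at h2
  have h3 : (((Icc 1 M).filter p).card : ℝ) ≤ ((M / L : ℕ) + 1 : ℝ) * Nat.count p L := by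
    have := h1.trans h2
    exact_mod_cast this
  have h4 : ((M / L : ℕ) : ℝ) ≤ (M : ℝ) / L := Nat.cast_div_le
  have hL' : (0 : ℝ) < L := by exact_mod_cast hL
  calc (((Icc 1 M).filter p).card : ℝ) ≤ ((M / L : ℕ) + 1 : ℝ) * Nat.count p L := h3
    _ ≤ ((M : ℝ) / L + 1) * Nat.count p L :=
        mul_le_mul_of_nonneg_right (by linarith) (Nat.cast_nonneg _)
    _ = (Nat.count p L : ℝ) / L * (M + L) := by field_simp

lemma cn_UF_ge {F : Finset ℕ} (hF : ∀ f ∈ F, 1 ≤ f) (M : ℕ) :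
    dl F * (M - (∏ f ∈ F, f : ℕ)) - 1 ≤ (cn (UF F) M : ℝ) := by
  have hL := prod_pos' hF
  rw [dl_eq, cn_UF]
  set L := ∏ f ∈ F, f with hLdef
  set p : ℕ → Prop := fun n => ∀ f ∈ F, ¬ f ∣ n with hp
  have h1 : Nat.count p (M + 1) ≤ ((Icc 1 M).filter p).card + 1 := by
    rw [Nat.count_eq_card_filter_range]
    have : (range (M + 1)).filter p ⊆ insert 0 ((Icc 1 M).filter p) := by
      intro n hn
      rw [mem_filter, mem_range] at hn
      rw [mem_insert, mem_filter, mem_Icc]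
      rcases Nat.eq_zero_or_pos n with h | h
      · exact Or.inl h
      · exact Or.inr ⟨⟨h, by omega⟩, hn.2⟩
    exact (card_le_card this).trans (card_insert_le _ _)
  have h2 : Nat.count p (L * (M / L)) ≤ Nat.count p (M + 1) :=
    Nat.count_monotone p ((Nat.mul_div_le M L).trans (Nat.le_succ M))
  rw [count_mul F (M / L)] at h2
  have h3 : ((M / L : ℕ) : ℝ) * Nat.count p L ≤ (((Icc 1 M).filter p).card : ℝ) + 1 := by
    have := h2.trans h1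
    exact_mod_cast this
  have hL' : (0 : ℝ) < L := by exact_mod_cast hL
  have h4 : (M : ℝ) / L - 1 ≤ ((M / L : ℕ) : ℝ) := by
    have h5 : (M : ℝ) < L * ((M / L : ℕ) + 1) := by exact_mod_cast Nat.lt_mul_div_succ M hL
    rw [sub_le_iff_le_add, div_le_iff₀ hL']
    linarith
  have h5 : ((M : ℝ) / L - 1) * Nat.count p L ≤ ((M / L : ℕ) : ℝ) * Nat.count p L :=
    mul_le_mul_of_nonneg_right h4 (Nat.cast_nonneg _)
  have h6 : (Nat.count p L : ℝ) / L * (M - L) = ((M : ℝ) / L - 1) * Nat.count p L := by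
    field_simp
  rw [h6]
  linarith

open scoped Classical in
lemma log_ge {F : Finset ℕ} (hF : ∀ f ∈ F, 1 ≤ f) (X : ℕ) :
    dl F * ∑ n ∈ Icc 1 (X + 1), (1 : ℝ) / n - (dl F * ((∏ f ∈ F, f : ℕ) + 1) + 1) ≤
      ∑ n ∈ (Icc 1 (X + 1)).filter (fun n => n ∈ UF F), (1 : ℝ) / n := by
  rw [abel, harm, sum_range_succ' (fun i : ℕ => 1 / ((i : ℝ) + 1)) X]
  set L : ℕ := ∏ f ∈ F, f with hL
  set δ := dl F with hδ
  have hδ0 : 0 ≤ δ := dl_nonneg F
  have h1 : ∀ m ∈ range X, δ * (1 / (((m + 1 : ℕ) : ℝ) + 1)) -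
      (δ * L + 1) * (1 / ((m : ℝ) + 1) - 1 / (((m + 1 : ℕ) : ℝ) + 1)) ≤
      (cn (UF F) (m + 1) : ℝ) / (((m : ℝ) + 1) * ((m : ℝ) + 2)) := by
    intro m _
    have h2 := cn_UF_ge hF (m + 1)
    rw [← hL, ← hδ] at h2
    rw [le_div_iff₀ (by positivity)]
    refine le_trans (le_of_eq ?_) h2
    push_cast
    have h3 : (m : ℝ) + 1 ≠ 0 := by positivity
    have h4 : (m : ℝ) + 1 + 1 ≠ 0 := by positivity
    field_simp
    ring
  have h2 := sum_le_sum h1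
  rw [sum_sub_distrib, ← mul_sum, ← mul_sum, sum_range_sub' (fun m : ℕ => 1 / ((m : ℝ) + 1))] at h2
  have h3 : (0 : ℝ) ≤ (cn (UF F) (X + 1) : ℝ) / (X + 1) := by positivity
  have h4 : (0 : ℝ) ≤ (δ * L + 1) * (1 / ((X : ℝ) + 1)) := by positivity
  have h5 : (δ * L + 1) * (1 / (((0 : ℕ) : ℝ) + 1) - 1 / ((X : ℝ) + 1)) =
      (δ * L + 1) - (δ * L + 1) * (1 / ((X : ℝ) + 1)) := by
    push_cast; ring
  rw [h5] at h2
  have h6 : δ * (∑ k ∈ range X, 1 / (((k + 1 : ℕ) : ℝ) + 1) + 1 / (((0 : ℕ) : ℝ) + 1)) =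
      δ * ∑ k ∈ range X, 1 / (((k + 1 : ℕ) : ℝ) + 1) + δ := by
    push_cast; ring
  rw [h6]
  linarith

lemma harm_unbounded (K : ℝ) : ∃ X : ℕ, K < ∑ n ∈ Icc 1 (X + 1), (1 : ℝ) / n := by
  have h8 := Real.tendsto_sum_range_one_div_nat_succ_atTop
  rw [Filter.tendsto_atTop_atTop] at h8
  obtain ⟨i, hi⟩ := h8 (K + 1)
  refine ⟨i, ?_⟩
  rw [harm]
  have := hi (i + 1) (by omega)
  linarith

open scoped Classical in
lemma dir_ge {F : Finset ℕ} (hF : ∀ f ∈ F, 1 ≤ f) {s : ℝ} (hs : 1 < s) (B : ℝ)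
    (hB : ∀ X : ℕ, ∑ d ∈ (Icc 1 X).filter (fun n => n ∈ UF F), (d : ℝ) ^ (-s) ≤ B) (Y : ℕ) :
    dl F * ∑ d ∈ Icc 1 Y, (d : ℝ) ^ (-s) ≤ B := by
  by_contra hcon
  rw [not_le] at hcon
  have hU : ∀ n ∈ UF F, n ≠ 0 → ∀ d, d ∣ n → d ∈ UF F :=
    fun n hn _ d hd f hf hfd => hn f hf (hfd.trans hd)
  set Z := ∑ d ∈ Icc 1 Y, (d : ℝ) ^ (-s) with hZ
  have hZ0 : 0 ≤ Z := sum_nonneg fun d _ => Real.rpow_nonneg (Nat.cast_nonneg _) _
  have hB0 : 0 ≤ B := le_trans (sum_nonneg fun d _ => Real.rpow_nonneg (Nat.cast_nonneg _) _) (hB 0)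
  set C := dl F * ((∏ f ∈ F, f : ℕ) + 1) + 1 with hC
  set HY := ∑ n ∈ Icc 1 Y, (1 : ℝ) / n with hHY
  obtain ⟨X, hX⟩ := harm_unbounded ((B * HY + C * Z) / (dl F * Z - B))
  rw [div_lt_iff₀ (by linarith)] at hX
  set H := ∑ n ∈ Icc 1 (X + 1), (1 : ℝ) / n with hH
  set P := ∑ e ∈ Icc 1 (X + 1), psi s e / e with hP
  have hP0 : 0 ≤ P := sum_nonneg fun e _ => div_nonneg (psi_nonneg hs _) (Nat.cast_nonneg _)
  have h1 : dl F * H - C ≤ B * P :=
    (log_ge hF X).trans ((upper hs (UF F) hU (X + 1)).trans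
      (mul_le_mul_of_nonneg_right (hB (X + 1)) hP0))
  have h2 : Z * P ≤ H + HY := by
    refine (lower hs (X + 1) Y).trans (le_trans ?_ (harm_mul (X + 1) Y (by omega)))
    refine sum_le_sum_of_subset_of_nonneg ?_ fun n _ _ => by positivity
    refine Icc_subset_Icc le_rfl ?_
    exact Nat.mul_le_mul_right _ (Nat.le_succ Y)
  have h3 : (dl F * H - C) * Z ≤ B * P * Z := mul_le_mul_of_nonneg_right h1 hZ0
  have h4 : B * (Z * P) ≤ B * (H + HY) := mul_le_mul_of_nonneg_left h2 hB0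
  nlinarith

end Pool.Agent.helper60.PC
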