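import Mathlib
import Pool.Agent.helper60.PC.DE

/-!
# The upper density of the complement of a set of multiples, infinite case
-/

set_option autoImplicit false

namespace Pool.Agent.helper60.PC

open Finset Filter Topology

open scoped Classical in
/-- Abel summation inequality -/
lemma abel_ineq (S : Set ℕ) (c N : ℝ) (h : ∀ m : ℕ, (cn S m : ℝ) ≤ c * m + N) (a : ℕ → ℝ)
    (ha : ∀ m, 1 ≤ m → a (m + 1) ≤ a m) (ha0 : ∀ m, 0 ≤ a m) (X : ℕ) :
    ∑ n ∈ (Icc 1 (X + 1)).filter (fun n => n ∈ S), a n ≤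
      c * ∑ n ∈ Icc 1 (X + 1), a n + N * a 1 := by
  have key : ∀ X : ℕ, ∑ n ∈ (Icc 1 (X + 1)).filter (fun n => n ∈ S), a n -
      c * ∑ n ∈ Icc 1 (X + 1), a n ≤
      ((cn S (X + 1) : ℝ) - c * ((X : ℝ) + 1)) * a (X + 1) + N * (a 1 - a (X + 1)) := by
    intro X
    induction X with
    | zero =>
      rw [cn_succ]
      have h0 : cn S 0 = 0 := Nat.le_zero.1 (cn_le S 0)
      by_cases h1 : 1 ∈ S
      · simp [h0, h1, filter_singleton]; linarith
      · simp [h0, h1, filter_singleton]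
    | succ X ih =>
      have h1 := h (X + 1)
      push_cast at h1
      have h2 := ha (X + 1) (by omega)
      have h3 : ((cn S (X + 1) : ℝ) - c * ((X : ℝ) + 1) - N) * (a (X + 1) - a (X + 1 + 1)) ≤ 0 :=
        mul_nonpos_of_nonpos_of_nonneg (by linarith) (by linarith)
      rw [← insert_Icc_right_eq_Icc_add_one (by omega : 1 ≤ X + 1 + 1), filter_insert,
        cn_succ S (X + 1), sum_insert (by simp)]
      by_cases h4 : X + 1 + 1 ∈ S
      · rw [if_pos h4, if_pos h4, sum_insert (by simp)]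
        push_cast
        nlinarith
      · rw [if_neg h4, if_neg h4]
        push_cast
        nlinarith
  have h1 := key X
  have h2 := h (X + 1)
  push_cast at h2
  have h3 : ((cn S (X + 1) : ℝ) - c * ((X : ℝ) + 1)) * a (X + 1) ≤ N * a (X + 1) :=
    mul_le_mul_of_nonneg_right (by linarith) (ha0 _)
  linarith

lemma summable_w {s : ℝ} (hs : 1 < s) : Summable (fun n : ℕ => (n : ℝ) ^ (-s)) :=
  Real.summable_nat_rpow.2 (by linarith)

open scoped Classical in
lemma sum_U_le {A : Set ℕ} (k : ℕ) {s : ℝ} (hs : 1 < s) (X : ℕ) :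
    ∑ d ∈ (Icc 1 X).filter (fun n => n ∈ UF ((range (k + 1)).filter (fun n => n ∈ A))),
      (d : ℝ) ^ (-s) ≤
      ∑' n, {n | 1 ≤ n ∧ n ∉ A}.indicator (fun n : ℕ => (n : ℝ) ^ (-s)) n +
        ∑' i : ℕ, ((i + (k + 1) : ℕ) : ℝ) ^ (-s) := by
  set E := (Icc 1 X).filter (fun n => n ∈ UF ((range (k + 1)).filter (fun n => n ∈ A))) with hE
  have hw0 : ∀ n : ℕ, (0 : ℝ) ≤ (n : ℝ) ^ (-s) := fun n => Real.rpow_nonneg (Nat.cast_nonneg _) _
  rw [← sum_filter_add_sum_filter_not E (fun n => n < k + 1)]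
  refine add_le_add ?_ ?_
  · have h1 : ∑ n ∈ E.filter (fun n => n < k + 1), (n : ℝ) ^ (-s) =
        ∑ n ∈ E.filter (fun n => n < k + 1),
          {n | 1 ≤ n ∧ n ∉ A}.indicator (fun n : ℕ => (n : ℝ) ^ (-s)) n := by
      refine sum_congr rfl fun n hn => ?_
      rw [Set.indicator_of_mem]
      obtain ⟨h2, h3⟩ := mem_filter.1 hn
      obtain ⟨h4, h5⟩ := mem_filter.1 h2
      rw [mem_Icc] at h4
      refine ⟨h4.1, fun h6 => ?_⟩
      exact h5 n (mem_filter.2 ⟨mem_range.2 h3, h6⟩) dvd_rfl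
    rw [h1]
    exact ((summable_w hs).indicator _).sum_le_tsum _
      fun n _ => Set.indicator_nonneg (fun n _ => hw0 n) n
  · have hsum : Summable (fun i : ℕ => ((i + (k + 1) : ℕ) : ℝ) ^ (-s)) :=
      (summable_nat_add_iff (f := fun n : ℕ => (n : ℝ) ^ (-s)) (k + 1)).2 (summable_w hs)
    have h1 : ∑ n ∈ E.filter (fun n => ¬ n < k + 1), (n : ℝ) ^ (-s) =
        ∑ i ∈ (E.filter (fun n => ¬ n < k + 1)).image (fun n => n - (k + 1)),
          ((i + (k + 1) : ℕ) : ℝ) ^ (-s) := by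
      rw [sum_image]
      · refine sum_congr rfl fun n hn => ?_
        have h2 := (mem_filter.1 hn).2
        rw [Nat.sub_add_cancel (by omega)]
      · intro x hx y hy hxy
        have h2 := (mem_filter.1 hx).2
        have h3 := (mem_filter.1 hy).2
        simp only at hxy
        omega
    rw [h1]
    exact hsum.sum_le_tsum _ fun n _ => hw0 _

/-- the logarithmic lower bound, infinite version -/
lemma zeta_le {A : Set ℕ} (hA1 : ∀ n ∈ A, 1 ≤ n) {c : ℝ}
    (h : ∀ F : Finset ℕ, (F : Set ℕ) ⊆ A → c ≤ dl F) {s : ℝ} (hs : 1 < s) (Y : ℕ) :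
    c * ∑ d ∈ Icc 1 Y, (d : ℝ) ^ (-s) ≤
      ∑' n, {n | 1 ≤ n ∧ n ∉ A}.indicator (fun n : ℕ => (n : ℝ) ^ (-s)) n := by
  classical
  have hZ0 : 0 ≤ ∑ d ∈ Icc 1 Y, (d : ℝ) ^ (-s) :=
    sum_nonneg fun d _ => Real.rpow_nonneg (Nat.cast_nonneg _) _
  have h1 : ∀ k : ℕ, c * ∑ d ∈ Icc 1 Y, (d : ℝ) ^ (-s) ≤
      ∑' n, {n | 1 ≤ n ∧ n ∉ A}.indicator (fun n : ℕ => (n : ℝ) ^ (-s)) n +
        ∑' i : ℕ, ((i + (k + 1) : ℕ) : ℝ) ^ (-s) := by
    intro k
    have h2 : (((range (k + 1)).filter (fun n => n ∈ A) : Finset ℕ) : Set ℕ) ⊆ A := by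
      intro n hn
      exact (mem_filter.1 (mem_coe.1 hn)).2
    refine le_trans (mul_le_mul_of_nonneg_right (h _ h2) hZ0) ?_
    refine dir_ge (fun f hf => hA1 f (mem_filter.1 hf).2) hs _ (fun X => ?_) Y
    exact sum_U_le k hs X
  have h2 : Tendsto (fun k : ℕ => ∑' i : ℕ, ((i + (k + 1) : ℕ) : ℝ) ^ (-s)) atTop (𝓝 0) :=
    (tendsto_sum_nat_add (fun n : ℕ => (n : ℝ) ^ (-s))).comp (tendsto_add_atTop_nat 1)
  have h3 := h2.const_add (∑' n, {n | 1 ≤ n ∧ n ∉ A}.indicator (fun n : ℕ => (n : ℝ) ^ (-s)) n)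
  rw [add_zero] at h3
  exact ge_of_tendsto' h3 h1

/-- **The upper density of the complement of a set of multiples.** -/
theorem upper_dens {A : Set ℕ} (hA1 : ∀ n ∈ A, 1 ≤ n) {c : ℝ}
    (h : ∀ F : Finset ℕ, (F : Set ℕ) ⊆ A → c ≤ dl F) {c' : ℝ} (hc' : 0 ≤ c') (hcc : c' < c)
    (N : ℕ) : ∃ M ≥ N, c' * M ≤ (cn {n | 1 ≤ n ∧ n ∉ A} M : ℝ) := by
  classical
  by_contra hcon
  push Not at hcon
  set S : Set ℕ := {n | 1 ≤ n ∧ n ∉ A} with hS
  have h1 : ∀ m : ℕ, (cn S m : ℝ) ≤ c' * m + N := by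
    intro m
    by_cases hm : N ≤ m
    · have := hcon m hm
      have : (0 : ℝ) ≤ N := Nat.cast_nonneg N
      linarith
    · have h2 : (cn S m : ℝ) ≤ m := by exact_mod_cast cn_le S m
      have h3 : (m : ℝ) ≤ N := by exact_mod_cast (by omega : m ≤ N)
      have h4 : 0 ≤ c' * (m : ℝ) := by positivity
      linarith
  have key : ∀ s : ℝ, 1 < s → ∀ Y : ℕ, (c - c') * ∑ d ∈ Icc 1 Y, (d : ℝ) ^ (-s) ≤ N := by
    intro s hs Y
    set a : ℕ → ℝ := fun n => (n : ℝ) ^ (-s) with ha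
    have ha0 : ∀ m, 0 ≤ a m := fun m => Real.rpow_nonneg (Nat.cast_nonneg _) _
    have ham : ∀ m, 1 ≤ m → a (m + 1) ≤ a m := by
      intro m hm
      have hm' : (0 : ℝ) < m := by exact_mod_cast hm
      refine Real.rpow_le_rpow_of_nonpos hm' ?_ (by linarith)
      push_cast; linarith
    have hsum : Summable a := summable_w hs
    have hz : a 0 = 0 := by simp only [ha]; rw [Nat.cast_zero, Real.zero_rpow (by linarith)]
    have hle : ∀ X : ℕ, ∑ n ∈ Icc 1 X, a n ≤ ∑' n, a n :=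
      fun X => hsum.sum_le_tsum _ fun n _ => ha0 n
    -- upper bound for the sum over `S`
    have hB : ∑' n, S.indicator a n ≤ c' * ∑' n, a n + N := by
      refine Real.tsum_le_of_sum_range_le (fun n => Set.indicator_nonneg (fun n _ => ha0 n) n) ?_
      intro n
      have h2 : ∑ i ∈ range n, S.indicator a i ≤
          ∑ n ∈ (Icc 1 (n + 1)).filter (fun n => n ∈ S), a n := by
        rw [sum_filter]
        have h3 : ∀ i, S.indicator a i = if i ∈ S then a i else 0 := fun i => by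
          rw [Set.indicator_apply]
        simp_rw [h3]
        rw [← sum_filter, ← sum_filter]
        refine sum_le_sum_of_subset_of_nonneg ?_ fun n _ _ => ha0 n
        intro i hi
        obtain ⟨h4, h5⟩ := mem_filter.1 hi
        rw [mem_range] at h4
        exact mem_filter.2 ⟨mem_Icc.2 ⟨h5.1, by omega⟩, h5⟩
      have h6 := abel_ineq S c' N h1 a ham ha0 n
      refine h2.trans (le_trans (le_of_eq ?_) (h6.trans ?_))
      · congr!
      have h3 : a 1 = 1 := by simp [ha]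
      rw [h3, mul_one]
      have := mul_le_mul_of_nonneg_left (hle (n + 1)) hc'
      linarith
    have hZ : ∀ Y : ℕ, c * ∑ d ∈ Icc 1 Y, a d ≤ ∑' n, S.indicator a n :=
      fun Y => zeta_le hA1 h hs Y
    have hc : 0 < c := lt_of_le_of_lt hc' hcc
    have h4 : ∑' n, a n ≤ (∑' n, S.indicator a n) / c := by
      refine Real.tsum_le_of_sum_range_le ha0 fun n => ?_
      rw [le_div_iff₀ hc, mul_comm]
      refine le_trans ?_ (hZ n)
      refine mul_le_mul_of_nonneg_left ?_ hc.le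
      have : range n ⊆ insert 0 (Icc 1 n) := by
        intro i hi
        rw [mem_range] at hi
        rw [mem_insert, mem_Icc]
        omega
      refine (sum_le_sum_of_subset_of_nonneg this fun i _ _ => ha0 i).trans ?_
      rw [sum_insert (by simp), hz, zero_add]
    rw [le_div_iff₀ hc] at h4
    have h5 : (c - c') * ∑ d ∈ Icc 1 Y, a d ≤ (c - c') * ∑' n, a n :=
      mul_le_mul_of_nonneg_left (hle Y) (by linarith)
    linarith
  have key2 : ∀ Y : ℕ, (c - c') * ∑ d ∈ Icc 1 Y, (1 : ℝ) / d ≤ N := by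
    intro Y
    have hcont : ContinuousAt (fun s : ℝ => (c - c') * ∑ d ∈ Icc 1 Y, (d : ℝ) ^ (-s)) 1 := by
      refine ContinuousAt.mul continuousAt_const ?_
      refine tendsto_finsetSum _ fun d hd => ?_
      rw [mem_Icc] at hd
      have hd0 : (d : ℝ) ≠ 0 := by
        have : (1 : ℝ) ≤ d := by exact_mod_cast hd.1
        positivity
      exact (Real.continuousAt_const_rpow hd0).comp (f := fun s : ℝ => -s) continuousAt_neg
    have h2 : Tendsto (fun s : ℝ => (c - c') * ∑ d ∈ Icc 1 Y, (d : ℝ) ^ (-s)) (𝓝[>] 1)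
        (𝓝 ((c - c') * ∑ d ∈ Icc 1 Y, (d : ℝ) ^ (-(1 : ℝ)))) :=
      hcont.tendsto.mono_left nhdsWithin_le_nhds
    have h3 := le_of_tendsto h2 (eventually_nhdsWithin_of_forall fun s hs => key s hs Y)
    refine le_trans (le_of_eq ?_) h3
    congr 1
    refine sum_congr rfl fun d _ => ?_
    rw [Real.rpow_neg_one, one_div]
  obtain ⟨X, hX⟩ := harm_unbounded (N / (c - c'))
  rw [div_lt_iff₀ (by linarith)] at hX
  have := key2 (X + 1)
  linarith

end Pool.Agent.helper60.PC
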