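import Mathlib

/-!
# Linear independence of the `n ^ α`, `n` squarefree without certain prime factors
-/

set_option autoImplicit false

namespace Pool.Agent.helper60.PC

open Set

/-- The power `n ^ α`. -/
noncomputable def pw (α : ℝ) (n : ℕ) : ℝ := (n : ℝ) ^ α

lemma pw_mul (α : ℝ) (m n : ℕ) : pw α (m * n) = pw α m * pw α n := by
  unfold pw
  rw [Nat.cast_mul, Real.mul_rpow (Nat.cast_nonneg m) (Nat.cast_nonneg n)]

lemma pw_pos {α : ℝ} {n : ℕ} (hn : n ≠ 0) : 0 < pw α n :=
  Real.rpow_pos_of_pos (Nat.cast_pos.2 (Nat.pos_of_ne_zero hn)) α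

lemma pw_one (α : ℝ) : pw α 1 = 1 := by simp [pw]

/-- The field generated over `ℚ` by the `q ^ α`, `q` prime, `q < x`. -/
noncomputable def K (α : ℝ) (x : ℕ) : IntermediateField ℚ ℝ :=
  IntermediateField.adjoin ℚ {y : ℝ | ∃ q : ℕ, q.Prime ∧ q < x ∧ y = (q : ℝ) ^ α}

/-- The primes `p` with `p ^ α` in the field generated by the `q ^ α`, `q < p` prime. -/
def RF (α : ℝ) : Set ℕ := {p | p.Prime ∧ (p : ℝ) ^ α ∈ K α p}

/-- The squarefree numbers without prime factors in `RF α`. -/
def SF (α : ℝ) : Set ℕ := {n | Squarefree n ∧ ∀ p ∈ RF α, ¬ p ∣ n}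

lemma pw_mem_K {α : ℝ} {x : ℕ} (n : ℕ) : n ≠ 0 → (∀ q, q.Prime → q ∣ n → q < x) →
    pw α n ∈ K α x := by
  induction n using Nat.recOnMul with
  | zero => intro h; exact absurd rfl h
  | one => intro _ _; rw [pw_one]; exact one_mem _
  | prime p hp =>
    intro _ h
    exact IntermediateField.subset_adjoin _ _ ⟨p, hp, h p hp dvd_rfl, rfl⟩
  | mul a b ha hb =>
    intro h h'
    obtain ⟨ha0, hb0⟩ := mul_ne_zero_iff.1 h
    rw [pw_mul]
    exact mul_mem (ha ha0 fun q hq hqa => h' q hq (hqa.mul_right b))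
      (hb hb0 fun q hq hqb => h' q hq (hqb.mul_left a))

/-- The members of `SF α` all whose prime factors are less than `x`. -/
def T (α : ℝ) (x : ℕ) : Set ℕ := {n | n ∈ SF α ∧ ∀ q, q.Prime → q ∣ n → q < x}

lemma T_ne_zero {α : ℝ} {x n : ℕ} (h : n ∈ T α x) : n ≠ 0 := h.1.1.ne_zero

lemma span_le_K (α : ℝ) (x : ℕ) :
    Submodule.span ℚ (pw α '' T α x) ≤ Subalgebra.toSubmodule (K α x).toSubalgebra := by
  rw [Submodule.span_le]
  rintro _ ⟨n, hn, rfl⟩
  exact pw_mem_K n (T_ne_zero hn) hn.2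

lemma T_succ_sub {α : ℝ} {p : ℕ} (hp : p.Prime) :
    T α (p + 1) ⊆ T α p ∪ (fun m => p * m) '' T α p := by
  intro n hn
  by_cases h : p ∣ n
  · right
    obtain ⟨m, rfl⟩ := h
    refine ⟨m, ⟨⟨hn.1.1.of_mul_right, fun q hq hqm => hn.1.2 q hq (hqm.mul_left p)⟩,
      fun q hq hqm => ?_⟩, rfl⟩
    have h1 := hn.2 q hq (hqm.mul_left p)
    have h2 : q ≠ p := by
      rintro rfl
      have h3 := Nat.squarefree_iff_prime_squarefree.1 hn.1.1 q hq
      exact h3 (Nat.mul_dvd_mul_left q hqm)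
    omega
  · left
    refine ⟨hn.1, fun q hq hqn => ?_⟩
    have h1 := hn.2 q hq hqn
    have h2 : q ≠ p := by rintro rfl; exact h hqn
    omega

lemma T_succ_of_not {α : ℝ} {x : ℕ} (h : ¬ (x.Prime ∧ x ∉ RF α)) : T α (x + 1) ⊆ T α x := by
  intro n hn
  refine ⟨hn.1, fun q hq hqn => ?_⟩
  have h1 := hn.2 q hq hqn
  have h2 : q ≠ x := by
    rintro rfl
    exact h ⟨hq, fun h3 => hn.1.2 q h3 hqn⟩
  omega

lemma linearIndepOn_T (α : ℝ) (x : ℕ) : LinearIndepOn ℚ (pw α) (T α x) := by
  induction x with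
  | zero =>
    have h0 : LinearIndepOn ℚ (pw α) ({1} : Set ℕ) := by
      refine LinearIndepOn.singleton (R := ℚ) (v := pw α) ?_
      rw [pw_one]; exact one_ne_zero
    refine h0.mono ?_
    · intro n hn
      by_contra h1
      obtain ⟨q, hq, hqn⟩ := Nat.exists_prime_and_dvd (n := n) h1
      exact absurd (hn.2 q hq hqn) (by omega)
  | succ x ih =>
    by_cases h : x.Prime ∧ x ∉ RF α
    · obtain ⟨hx, hxR⟩ := h
      refine LinearIndepOn.mono ?_ (T_succ_sub hx)
      have hx0 : pw α x ≠ 0 := (pw_pos hx.ne_zero).ne'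
      have himg : pw α '' ((fun m => x * m) '' T α x) =
          (LinearMap.mulLeft ℚ (pw α x)) '' (pw α '' T α x) := by
        rw [image_image, image_image]
        refine image_congr fun m _ => ?_
        rw [pw_mul, LinearMap.mulLeft_apply]
      refine ih.union ?_ ?_
      · refine LinearIndepOn.image_of_comp (fun m => x * m) (pw α) ?_
        have h1 : (pw α) ∘ (fun m => x * m) = (LinearMap.mulLeft ℚ (pw α x)) ∘ pw α := by
          funext m
          simp [pw_mul]
        rw [h1]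
        refine LinearIndependent.map' ih (LinearMap.mulLeft ℚ (pw α x)) ?_
        rw [LinearMap.ker_eq_bot]
        intro a b hab
        simpa [hx0] using hab
      · rw [himg, ← Submodule.map_span, Submodule.disjoint_def]
        rintro y hy ⟨z, hz, hzy⟩
        have hy' : y ∈ K α x := span_le_K α x hy
        have hz' : z ∈ K α x := span_le_K α x hz
        rw [LinearMap.mulLeft_apply] at hzy
        by_cases hz0 : z = 0
        · rw [← hzy, hz0, mul_zero]
        · exfalso
          apply hxR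
          refine ⟨hx, ?_⟩
          have h2 : (x : ℝ) ^ α = y / z := by
            rw [eq_div_iff hz0]; exact hzy
          rw [h2]
          exact div_mem hy' hz'
    · exact ih.mono (T_succ_of_not h)

/-- **Independence.** -/
theorem linearIndepOn_SF (α : ℝ) : LinearIndepOn ℚ (pw α) (SF α) := by
  refine linearIndepOn_of_finite _ fun t ht hfin => ?_
  obtain ⟨M, hM⟩ := hfin.bddAbove
  refine (linearIndepOn_T α (M + 1)).mono fun n hn => ⟨ht hn, fun q _ hqn => ?_⟩
  have h1 : q ≤ n := Nat.le_of_dvd (Nat.pos_of_ne_zero (ht hn).1.ne_zero) hqn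
  have h2 : n ≤ M := hM hn
  omega

end Pool.Agent.helper60.PC
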