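import Mathlib
import Pool.Agent.helper60.PC.Ind
import Pool.Agent.helper60.PC.Dens

/-!
# The numbers `n` with `n ^ α` in the span of the smaller powers
-/

set_option autoImplicit false

namespace Pool.Agent.helper60.PC

open Finset

/-- The `n` with `n ^ α` in the span of the `m ^ α`, `1 ≤ m < n`. -/
def Dp (α : ℝ) : Set ℕ :=
  {n | 1 ≤ n ∧ pw α n ∈ Submodule.span ℚ (pw α '' {m | 1 ≤ m ∧ m < n})}

/-- the other positive integers -/
def Sg (α : ℝ) : Set ℕ := {n | 1 ≤ n ∧ n ∉ Dp α}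

lemma Dp_mul {α : ℝ} {n k : ℕ} (hn : n ∈ Dp α) (hk : 1 ≤ k) : k * n ∈ Dp α := by
  obtain ⟨h1, h2⟩ := hn
  refine ⟨Nat.mul_pos hk h1, ?_⟩
  have h3 : LinearMap.mulLeft ℚ (pw α k) (pw α n) ∈
      Submodule.map (LinearMap.mulLeft ℚ (pw α k))
        (Submodule.span ℚ (pw α '' {m | 1 ≤ m ∧ m < n})) :=
    Submodule.mem_map_of_mem h2
  rw [Submodule.map_span, LinearMap.mulLeft_apply, ← pw_mul] at h3
  refine Submodule.span_mono ?_ h3
  rintro _ ⟨_, ⟨m, hm, rfl⟩, rfl⟩
  refine ⟨k * m, ⟨Nat.mul_pos hk hm.1, Nat.mul_lt_mul_of_pos_left hm.2 hk⟩, ?_⟩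
  rw [LinearMap.mulLeft_apply, pw_mul]

lemma Dp_dvd {α : ℝ} {d n : ℕ} (hd : d ∈ Dp α) (hdn : d ∣ n) (hn : n ≠ 0) : n ∈ Dp α := by
  obtain ⟨k, rfl⟩ := hdn
  rw [mul_comm]
  refine Dp_mul hd ?_
  rcases Nat.eq_zero_or_pos k with h | h
  · subst h; simp at hn
  · exact h

/-- the greedy family is independent -/
theorem linearIndepOn_Sg (α : ℝ) : LinearIndepOn ℚ (pw α) (Sg α) := by
  have key : ∀ N : ℕ, LinearIndepOn ℚ (pw α) (Sg α ∩ {n | n < N}) := by
    intro N
    induction N with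
    | zero =>
      have : Sg α ∩ {n | n < 0} = ∅ := by ext n; simp
      rw [this]
      exact linearIndepOn_empty ℚ _
    | succ N ih =>
      by_cases h : N ∈ Sg α
      · have h1 : Sg α ∩ {n | n < N + 1} = insert N (Sg α ∩ {n | n < N}) := by
          ext n
          simp only [Set.mem_inter_iff, Set.mem_ofPred_eq, Set.mem_insert_iff]
          constructor
          · rintro ⟨h2, h3⟩
            rcases Nat.lt_succ_iff_lt_or_eq.1 h3 with h4 | h4
            · exact Or.inr ⟨h2, h4⟩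
            · exact Or.inl h4
          · rintro (h2 | ⟨h2, h3⟩)
            · subst h2; exact ⟨h, by omega⟩
            · exact ⟨h2, by omega⟩
        rw [h1, linearIndepOn_insert (by simp)]
        refine ⟨ih, fun h2 => h.2 ⟨h.1, Submodule.span_mono (Set.image_mono ?_) h2⟩⟩
        intro n hn
        exact ⟨hn.1.1, hn.2⟩
      · have h1 : Sg α ∩ {n | n < N + 1} = Sg α ∩ {n | n < N} := by
          ext n
          simp only [Set.mem_inter_iff, Set.mem_ofPred_eq]
          constructor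
          · rintro ⟨h2, h3⟩
            rcases Nat.lt_succ_iff_lt_or_eq.1 h3 with h4 | h4
            · exact ⟨h2, h4⟩
            · subst h4; exact absurd h2 h
          · rintro ⟨h2, h3⟩
            exact ⟨h2, by omega⟩
        rw [h1]
        exact ih
  refine linearIndepOn_of_finite _ fun t ht hfin => ?_
  obtain ⟨M, hM⟩ := hfin.bddAbove
  refine (key (M + 1)).mono fun n hn => ⟨ht hn, ?_⟩
  have h2 : n ≤ M := hM hn
  exact Nat.lt_succ_of_le h2

/-- the greedy family spans -/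
lemma span_Sg (α : ℝ) (n : ℕ) : 1 ≤ n →
    pw α n ∈ Submodule.span ℚ (pw α '' (Sg α ∩ Set.Icc 1 n)) := by
  induction n using Nat.strong_induction_on with
  | _ n ih =>
    intro hn
    by_cases h : n ∈ Dp α
    · have h1 : Submodule.span ℚ (pw α '' {m | 1 ≤ m ∧ m < n}) ≤
          Submodule.span ℚ (pw α '' (Sg α ∩ Set.Icc 1 n)) := by
        rw [Submodule.span_le]
        rintro _ ⟨m, hm, rfl⟩
        refine Submodule.span_mono (Set.image_mono ?_) (ih m hm.2 hm.1)
        rintro k ⟨hk1, hk2⟩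
        exact ⟨hk1, hk2.1, hk2.2.trans hm.2.le⟩
      exact h1 h.2
    · exact Submodule.subset_span ⟨n, ⟨⟨hn, h⟩, hn, le_refl n⟩, rfl⟩

/-- dimension count -/
lemma cn_indep_le {α : ℝ} {T : Set ℕ} (hT : LinearIndepOn ℚ (pw α) (T ∩ {n | 1 ≤ n})) (M : ℕ) :
    cn T M ≤ cn (Sg α) M := by
  unfold cn
  have hfin : (T ∩ Set.Icc 1 M).Finite := (Set.finite_Icc 1 M).inter_of_right T
  have hfin2 : (Sg α ∩ Set.Icc 1 M).Finite := (Set.finite_Icc 1 M).inter_of_right _
  have h1 : LinearIndepOn ℚ (pw α) (T ∩ Set.Icc 1 M) :=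
    hT.mono fun n hn => ⟨hn.1, hn.2.1⟩
  have : Fintype ↥(T ∩ Set.Icc 1 M) := hfin.fintype
  have h2 := finrank_span_eq_card (R := ℚ) h1
  have h3 : Set.range (fun x : ↥(T ∩ Set.Icc 1 M) => pw α x) = pw α '' (T ∩ Set.Icc 1 M) := by
    ext y; simp
  rw [h3] at h2
  have hfinimg : (pw α '' (Sg α ∩ Set.Icc 1 M)).Finite := hfin2.image _
  have : FiniteDimensional ℚ (Submodule.span ℚ (pw α '' (Sg α ∩ Set.Icc 1 M))) :=
    FiniteDimensional.span_of_finite ℚ hfinimg
  have h4 : Submodule.span ℚ (pw α '' (T ∩ Set.Icc 1 M)) ≤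
      Submodule.span ℚ (pw α '' (Sg α ∩ Set.Icc 1 M)) := by
    rw [Submodule.span_le]
    rintro _ ⟨m, hm, rfl⟩
    refine Submodule.span_mono (Set.image_mono ?_) (span_Sg α m hm.2.1)
    rintro k ⟨hk1, hk2⟩
    exact ⟨hk1, hk2.1, hk2.2.trans hm.2.2⟩
  have h5 := Submodule.finrank_mono h4
  have h6 := finrank_span_finset_le_card (R := ℚ) hfinimg.toFinset
  rw [Set.Finite.coe_toFinset, Set.finrank] at h6
  have h7 : hfinimg.toFinset.card ≤ (Sg α ∩ Set.Icc 1 M).ncard := by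
    rw [← Set.ncard_eq_toFinset_card _ hfinimg]
    exact Set.ncard_image_le hfin2
  rw [← Nat.card_coe_set_eq, Nat.card_eq_fintype_card, ← h2]
  exact h5.trans (h6.trans h7)

end Pool.Agent.helper60.PC
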