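import Mathlib
import Pool.Agent.helper60.PC.Greedy
import Pool.Agent.helper60.PC.DE2

/-!
# Criteria for weak independence
-/

set_option autoImplicit false

namespace Pool.Agent.helper60.PC

open Finset

/-- upper density at least `c` -/
def UD (T : Set ℕ) (c : ℝ) : Prop := ∀ c' < c, ∀ N : ℕ, ∃ M : ℕ, N ≤ M ∧ c' * M ≤ (cn T M : ℝ)

lemma indepOn_pos {α : ℝ} {T : Set ℕ} (hT : LinearIndependent ℚ (fun n : T => ((n : ℕ) : ℝ) ^ α)) :
    LinearIndepOn ℚ (pw α) (T ∩ {n | 1 ≤ n}) :=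
  LinearIndepOn.mono (s := T) hT Set.inter_subset_left

lemma Dp_pos {α : ℝ} : ∀ n ∈ Dp α, 1 ≤ n := fun _ h => h.1

lemma cn_Sg_le {α : ℝ} {F : Finset ℕ} (hF : (F : Set ℕ) ⊆ Dp α) (M : ℕ) :
    cn (Sg α) M ≤ cn (UF F) M := by
  unfold cn
  refine Set.ncard_le_ncard ?_ ((Set.finite_Icc 1 M).inter_of_right _)
  rintro n ⟨hn, hn2⟩
  refine ⟨fun f hf hfn => hn.2 (Dp_dvd (hF hf) hfn ?_), hn2⟩
  have := hn2.1
  omega

/-- an independent family of upper density `≥ c` bounds the densities from below -/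
lemma le_dl {α : ℝ} {T : Set ℕ} (hT : LinearIndependent ℚ (fun n : T => ((n : ℕ) : ℝ) ^ α))
    {c : ℝ} (hc : UD T c) {F : Finset ℕ} (hF : (F : Set ℕ) ⊆ Dp α) : c ≤ dl F := by
  by_contra hcon
  rw [not_le] at hcon
  have hF1 : ∀ f ∈ F, 1 ≤ f := fun f hf => Dp_pos f (hF hf)
  set L : ℕ := ∏ f ∈ F, f with hL
  set c' := (dl F + c) / 2 with hc'
  have h1 : dl F < c' := by rw [hc']; linarith
  have h2 : c' < c := by rw [hc']; linarith
  obtain ⟨N, hN⟩ := exists_nat_gt (dl F * L / (c' - dl F))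
  obtain ⟨M, hM, hM2⟩ := hc c' h2 N
  have h3 : (cn T M : ℝ) ≤ dl F * (M + L) := by
    have h4 : cn T M ≤ cn (UF F) M := (cn_indep_le (indepOn_pos hT) M).trans (cn_Sg_le hF M)
    have h5 : (cn T M : ℝ) ≤ cn (UF F) M := by exact_mod_cast h4
    exact h5.trans (cn_UF_le hF1 M)
  rw [div_lt_iff₀ (by linarith)] at hN
  have h4 : (N : ℝ) ≤ M := by exact_mod_cast hM
  have h5 : (N : ℝ) * (c' - dl F) ≤ M * (c' - dl F) :=
    mul_le_mul_of_nonneg_right h4 (by linarith)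
  linarith

lemma sharp (α c : ℝ) :
    (∃ T : Set ℕ, UD T c ∧ LinearIndependent ℚ (fun n : T => ((n : ℕ) : ℝ) ^ α)) ↔
      ∀ F : Finset ℕ, (F : Set ℕ) ⊆ Dp α → c ≤ dl F := by
  constructor
  · rintro ⟨T, h1, h2⟩ F hF
    exact le_dl h2 h1 hF
  · intro h
    refine ⟨Sg α, fun c' hc' N => ?_, linearIndepOn_Sg α⟩
    by_cases h0 : 0 ≤ c'
    · exact upper_dens Dp_pos h h0 hc' N
    · refine ⟨N, le_rfl, ?_⟩
      have h1 : c' * (N : ℝ) ≤ 0 :=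
        mul_nonpos_of_nonpos_of_nonneg (by linarith) (Nat.cast_nonneg _)
      exact h1.trans (Nat.cast_nonneg _)

/-- The conclusion of Q1 for the exponent `α`. -/
def WI (α : ℝ) : Prop :=
  ∃ S : Set ℕ,
    (∃ c : ℝ, 0 < c ∧ ∀ N : ℕ, ∃ M : ℕ, N ≤ M ∧
        c * (M : ℝ) ≤ ((S ∩ Set.Icc 1 M).ncard : ℝ)) ∧
    LinearIndependent ℚ (fun n : S => ((n : ℕ) : ℝ) ^ α)

lemma UD_of {T : Set ℕ} {c : ℝ}
    (h : ∀ N : ℕ, ∃ M : ℕ, N ≤ M ∧ c * (M : ℝ) ≤ ((T ∩ Set.Icc 1 M).ncard : ℝ)) : UD T c := by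
  intro c' hc' N
  obtain ⟨M, h1, h2⟩ := h N
  exact ⟨M, h1, (mul_le_mul_of_nonneg_right hc'.le (Nat.cast_nonneg _)).trans h2⟩

lemma WI_iff (α : ℝ) :
    WI α ↔ ∃ c : ℝ, 0 < c ∧ ∀ F : Finset ℕ, (F : Set ℕ) ⊆ Dp α → c ≤ dl F := by
  constructor
  · rintro ⟨T, ⟨c, hc, h⟩, hT⟩
    exact ⟨c, hc, fun F hF => le_dl hT (UD_of h) hF⟩
  · rintro ⟨c, hc, h⟩
    obtain ⟨T, h1, h2⟩ := (sharp α c).2 h
    exact ⟨T, ⟨c / 2, by linarith, fun N => h1 (c / 2) (by linarith) N⟩, h2⟩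

/-- sufficient condition -/
lemma WI_of_RF (α : ℝ) (h : Summable ((RF α).indicator (fun p : ℕ => (1 : ℝ) / p))) : WI α := by
  obtain ⟨c, hc, h1⟩ := dens (RF α) (fun p hp => hp.1) h
  refine ⟨SF α, ⟨c, hc, fun N => ?_⟩, linearIndepOn_SF α⟩
  obtain ⟨M, hM, h2⟩ := h1 N
  exact ⟨M, hM, h2⟩

/-- the density for a set of primes -/
lemma dl_primes {F : Finset ℕ} (hF : ∀ p ∈ F, p.Prime) : dl F = ∏ p ∈ F, (1 - (p : ℝ)⁻¹) := by
  have hL := prod_pos' (F := F) fun f hf => (hF f hf).one_le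
  unfold dl
  have h1 : ((range (∏ f ∈ F, f)).filter (fun n => ∀ f ∈ F, ¬ f ∣ n)).card =
      Nat.totient (∏ f ∈ F, f) := by
    unfold Nat.totient
    congr 1
    ext n
    simp only [mem_filter, mem_range, and_congr_right_iff]
    intro _
    rw [Nat.coprime_prod_left_iff]
    refine forall₂_congr fun f hf => ?_
    exact ((hF f hf).coprime_iff_not_dvd).symm
  have h2 : (∏ f ∈ F, f).primeFactors = F := by
    ext p
    rw [Nat.mem_primeFactors]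
    constructor
    · rintro ⟨hp, hpd, _⟩
      obtain ⟨q, hq, hpq⟩ := (hp.prime.dvd_finsetProd_iff _).1 hpd
      have := (Nat.prime_dvd_prime_iff_eq hp (hF q hq)).1 hpq
      rwa [this]
    · intro hp
      exact ⟨hF p hp, dvd_prod_of_mem _ hp, hL.ne'⟩
  have h3 := Nat.totient_eq_mul_prod_factors (∏ f ∈ F, f)
  rw [h2] at h3
  have h4 : ((Nat.totient (∏ f ∈ F, f) : ℕ) : ℝ) =
      ((∏ f ∈ F, f : ℕ) : ℝ) * ∏ p ∈ F, (1 - (p : ℝ)⁻¹) := by
    have := congrArg (fun x : ℚ => (x : ℝ)) h3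
    push_cast at this
    push_cast
    exact this
  have hL' : ((∏ f ∈ F, f : ℕ) : ℝ) ≠ 0 := by exact_mod_cast hL.ne'
  rw [h1, h4, mul_comm, mul_div_assoc, div_self hL', mul_one]

/-- necessary condition -/
lemma summable_of_WI (α : ℝ) (h : WI α) :
    Summable ({p | p.Prime ∧ p ∈ Dp α}.indicator (fun p : ℕ => (1 : ℝ) / p)) := by
  classical
  obtain ⟨c, hc, h1⟩ := (WI_iff α).1 h
  refine summable_of_sum_range_le (c := -Real.log c)
    (fun p => Set.indicator_nonneg (fun _ _ => by positivity) p) fun n => ?_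
  set F : Finset ℕ := (range n).filter (fun p => p.Prime ∧ p ∈ Dp α) with hF
  have h2 : ∑ i ∈ range n, {p | p.Prime ∧ p ∈ Dp α}.indicator (fun p : ℕ => (1 : ℝ) / p) i =
      ∑ p ∈ F, (p : ℝ)⁻¹ := by
    rw [hF, sum_filter]
    refine sum_congr rfl fun i _ => ?_
    rw [Set.indicator_apply]
    simp only [Set.mem_ofPred_eq, one_div]
  have h3 : (F : Set ℕ) ⊆ Dp α := fun p hp => (mem_filter.1 (mem_coe.1 hp)).2.2
  have h4 : ∀ p ∈ F, p.Prime := fun p hp => (mem_filter.1 hp).2.1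
  have h5 := h1 F h3
  rw [dl_primes h4] at h5
  have h6 : ∏ p ∈ F, (1 - (p : ℝ)⁻¹) ≤ Real.exp (∑ p ∈ F, -(p : ℝ)⁻¹) := by
    rw [Real.exp_sum]
    refine prod_le_prod (fun p hp => ?_) fun p _ => ?_
    · have : (1 : ℝ) ≤ p := by exact_mod_cast (h4 p hp).one_le
      have := inv_le_one_of_one_le₀ this
      linarith
    · have := Real.add_one_le_exp (-(p : ℝ)⁻¹)
      linarith
  have h7 := (Real.log_le_log hc (h5.trans h6))
  rw [Real.log_exp, sum_neg_distrib] at h7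
  rw [h2]
  linarith

/-- translation of the exponent by an integer -/
lemma WI_add (α : ℝ) (k : ℤ) (h : WI α) : WI (α + k) := by
  obtain ⟨T, ⟨c, hc, h1⟩, hT⟩ := h
  refine ⟨T ∩ {n | 1 ≤ n}, ⟨c, hc, fun N => ?_⟩, ?_⟩
  · obtain ⟨M, hM, h2⟩ := h1 N
    refine ⟨M, hM, ?_⟩
    have h3 : T ∩ {n | 1 ≤ n} ∩ Set.Icc 1 M = T ∩ Set.Icc 1 M := by
      ext n
      simp only [Set.mem_inter_iff, Set.mem_ofPred_eq, Set.mem_Icc]
      tauto
    rw [h3]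
    exact h2
  · have h2 : LinearIndependent ℚ (fun n : ↥(T ∩ {n | 1 ≤ n}) => ((n : ℕ) : ℝ) ^ α) :=
      indepOn_pos hT
    have hne : ∀ n : ↥(T ∩ {n : ℕ | 1 ≤ n}), ((n : ℕ) : ℚ) ^ k ≠ 0 := by
      intro n
      refine zpow_ne_zero _ ?_
      have : 1 ≤ (n : ℕ) := n.2.2
      exact_mod_cast (by omega : (n : ℕ) ≠ 0)
    have h3 := h2.units_smul (fun n => Units.mk0 _ (hne n))
    have h4 : ((fun n : ↥(T ∩ {n : ℕ | 1 ≤ n}) => Units.mk0 _ (hne n)) •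
        fun n : ↥(T ∩ {n : ℕ | 1 ≤ n}) => ((n : ℕ) : ℝ) ^ α) =
        fun n : ↥(T ∩ {n : ℕ | 1 ≤ n}) => ((n : ℕ) : ℝ) ^ (α + k) := by
      funext n
      have hn : ((n : ℕ) : ℝ) ≠ 0 := by
        have : 1 ≤ (n : ℕ) := n.2.2
        exact_mod_cast (by omega : (n : ℕ) ≠ 0)
      rw [Pi.smul_apply', Units.smul_def, Units.val_mk0, Rat.smul_def, Real.rpow_add_intCast hn]
      push_cast
      ring
    rw [h4] at h3
    exact h3

lemma WI_add_iff (α : ℝ) (k : ℤ) : WI (α + k) ↔ WI α := by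
  refine ⟨fun h => ?_, WI_add α k⟩
  have h1 := WI_add (α + k) (-k) h
  push_cast at h1
  rwa [add_neg_cancel_right] at h1

end Pool.Agent.helper60.PC
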