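import Mathlib
import Pool.Agent.helper60.PC.Final

/-!
# Degrees of the `p ^ α` over the field generated by the smaller ones
-/

set_option autoImplicit false

namespace Pool.Agent.helper60.PC

open Finset Polynomial

/-- `p ^ α` is not a root of a nonzero polynomial of degree `≤ e` over `K α p` -/
def Fr (α : ℝ) (p e : ℕ) : Prop :=
  ∀ f : (K α p)[X], f.natDegree ≤ e → aeval ((p : ℝ) ^ α) f = 0 → f = 0

lemma Fr_mono {α : ℝ} {p e e' : ℕ} (h : Fr α p e) (he : e' ≤ e) : Fr α p e' :=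
  fun f hf => h f (hf.trans he)

/-- the allowed integers -/
def TF (α : ℝ) : Set ℕ := {n | 1 ≤ n ∧ ∀ p e : ℕ, p.Prime → p ^ e ∣ n → Fr α p e}

/-- those with prime factors `< x` -/
def TX (α : ℝ) (x : ℕ) : Set ℕ := {n | n ∈ TF α ∧ ∀ q, q.Prime → q ∣ n → q < x}

lemma indep_pow (α : ℝ) (p : ℕ) :
    LinearIndependent (K α p) (fun e : {e // Fr α p e} => ((p : ℝ) ^ α) ^ (e : ℕ)) := by
  classical
  rw [linearIndependent_iff']
  intro s g hg i hi
  set f : (K α p)[X] := ∑ j ∈ s, C (g j) * X ^ (j : ℕ) with hf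
  have h1 : aeval ((p : ℝ) ^ α) f = 0 := by
    rw [hf, map_sum, ← hg]
    refine sum_congr rfl fun j _ => ?_
    rw [map_mul, aeval_C, map_pow, aeval_X, Algebra.smul_def]
  obtain ⟨m, hm, hmax⟩ := exists_max_image s (fun j => (j : ℕ)) ⟨i, hi⟩
  have h2 : f.natDegree ≤ m := by
    refine natDegree_sum_le_of_forall_le s _ fun j hj => ?_
    exact (natDegree_C_mul_X_pow_le _ _).trans (hmax j hj)
  have h3 : f = 0 := m.2 f h2 h1
  have h4 : f.coeff (i : ℕ) = g i := by
    rw [hf, finsetSum_coeff]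
    simp_rw [coeff_C_mul_X_pow]
    rw [sum_eq_single i]
    · simp
    · intro j _ hji
      rw [if_neg]
      intro h
      exact hji (Subtype.ext h.symm)
    · intro h; exact absurd hi h
  rw [← h4, h3, coeff_zero]

lemma TX_mem_K {α : ℝ} {x n : ℕ} (h : n ∈ TX α x) : pw α n ∈ K α x :=
  pw_mem_K n (by have := h.1.1; omega) h.2

lemma TX_succ {α : ℝ} {x : ℕ} (hx : x.Prime) :
    TX α (x + 1) ⊆ (fun q : ℕ × ℕ => x ^ q.2 * q.1) '' (TX α x ×ˢ {e | Fr α x e}) := by
  intro n hn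
  have hn0 : n ≠ 0 := by have := hn.1.1; omega
  obtain ⟨e, m, hm, hnm⟩ := Nat.exists_eq_pow_mul_and_not_dvd hn0 x hx.ne_one
  have hm0 : m ≠ 0 := by rintro rfl; simp at hm
  refine ⟨(m, e), ⟨⟨⟨by omega, fun p k hp hpk => ?_⟩, fun q hq hqm => ?_⟩, ?_⟩, hnm.symm⟩
  · exact hn.1.2 p k hp (hnm ▸ hpk.mul_left _)
  · have h1 := hn.2 q hq (hnm ▸ hqm.mul_left _)
    have h2 : q ≠ x := by rintro rfl; exact hm hqm
    omega
  · exact hn.1.2 x e hx (hnm ▸ Dvd.intro m rfl)

lemma TX_succ_of_not {α : ℝ} {x : ℕ} (h : ¬ x.Prime) : TX α (x + 1) ⊆ TX α x := by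
  intro n hn
  refine ⟨hn.1, fun q hq hqn => ?_⟩
  have h1 := hn.2 q hq hqn
  have h2 : q ≠ x := by rintro rfl; exact h hq
  omega

lemma linearIndepOn_TX (α : ℝ) (x : ℕ) : LinearIndepOn ℚ (pw α) (TX α x) := by
  induction x with
  | zero =>
    have h0 : LinearIndepOn ℚ (pw α) ({1} : Set ℕ) := by
      refine LinearIndepOn.singleton (R := ℚ) (v := pw α) ?_
      rw [pw_one]; exact one_ne_zero
    refine h0.mono ?_
    intro n hn
    by_contra h1
    obtain ⟨q, hq, hqn⟩ := Nat.exists_prime_and_dvd (n := n) h1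
    exact absurd (hn.2 q hq hqn) (by omega)
  | succ x ih =>
    by_cases hx : x.Prime
    · refine LinearIndepOn.mono ?_ (TX_succ hx)
      refine LinearIndepOn.image_of_comp (fun q : ℕ × ℕ => x ^ q.2 * q.1) (pw α) ?_
      let b : TX α x → K α x := fun n => ⟨pw α n, TX_mem_K n.2⟩
      have hb : LinearIndependent ℚ b := by
        refine LinearIndependent.of_comp ((K α x).val.toLinearMap) ?_
        exact ih
      have h1 := linearIndependent_smul hb (indep_pow α x)
      have h2 : LinearIndependent ℚ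
          (fun q : ↥(TX α x ×ˢ {e | Fr α x e}) => pw α (x ^ (q : ℕ × ℕ).2 * (q : ℕ × ℕ).1)) := by
        let φ : ↥(TX α x ×ˢ {e | Fr α x e}) → (TX α x) × {e // Fr α x e} :=
          fun q => (⟨(q : ℕ × ℕ).1, q.2.1⟩, ⟨(q : ℕ × ℕ).2, q.2.2⟩)
        have hφ : Function.Injective φ := by
          intro q q' h
          apply Subtype.ext
          have h3 := congrArg (fun z => ((z.1 : ℕ), (z.2 : ℕ))) h
          exact h3
        have h3 := h1.comp φ hφ
        have h4 : (fun q : ↥(TX α x ×ˢ {e | Fr α x e}) =>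
            pw α (x ^ (q : ℕ × ℕ).2 * (q : ℕ × ℕ).1)) =
            (fun p : (TX α x) × {e // Fr α x e} => b p.1 • ((x : ℝ) ^ α) ^ (p.2 : ℕ)) ∘ φ := by
          funext q
          simp only [Function.comp_apply, φ, b]
          rw [pw_mul, IntermediateField.smul_def, smul_eq_mul, mul_comm]
          congr 1
          unfold pw
          rw [Nat.cast_pow, ← Real.rpow_natCast, ← Real.rpow_natCast,
            ← Real.rpow_mul (Nat.cast_nonneg x), ← Real.rpow_mul (Nat.cast_nonneg x), mul_comm]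
        rw [h4]
        exact h3
      exact h2
    · exact ih.mono (TX_succ_of_not hx)

theorem linearIndepOn_TF (α : ℝ) : LinearIndepOn ℚ (pw α) (TF α) := by
  refine linearIndepOn_of_finite _ fun t ht hfin => ?_
  obtain ⟨M, hM⟩ := hfin.bddAbove
  refine (linearIndepOn_TX α (M + 1)).mono fun n hn => ⟨ht hn, fun q _ hqn => ?_⟩
  have h0 := (ht hn).1
  have h1 : q ≤ n := Nat.le_of_dvd (by omega) hqn
  have h2 : n ≤ M := hM hn
  omega

open scoped Classical in
/-- upper density from a logarithmic lower bound -/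
lemma UD_of_log {S : Set ℕ} {c : ℝ}
    (h : ∀ X : ℕ, c * ∑ n ∈ Icc 1 X, (1 : ℝ) / n ≤
      ∑ n ∈ (Icc 1 X).filter (fun n => n ∈ S), (1 : ℝ) / n) : UD S c := by
  intro c' hc'
  by_cases h0 : 0 ≤ c'
  · by_contra hcon
    push Not at hcon
    obtain ⟨N, hN⟩ := hcon
    have h1 : ∀ m : ℕ, (cn S m : ℝ) ≤ c' * m + N := by
      intro m
      by_cases hm : N ≤ m
      · have := hN m hm
        have : (0 : ℝ) ≤ N := Nat.cast_nonneg N
        linarith
      · have h2 : (cn S m : ℝ) ≤ m := by exact_mod_cast cn_le S m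
        have h3 : (m : ℝ) ≤ N := by exact_mod_cast (by omega : m ≤ N)
        have h4 : 0 ≤ c' * (m : ℝ) := by positivity
        linarith
    obtain ⟨X, hX⟩ := harm_unbounded (N / (c - c'))
    rw [div_lt_iff₀ (by linarith)] at hX
    have h2 := abel_ineq S c' N h1 (fun n : ℕ => (1 : ℝ) / n) (fun m hm => by
      have hm' : (0 : ℝ) < m := by exact_mod_cast hm
      exact one_div_le_one_div_of_le hm' (by push_cast; linarith)) (fun m => by positivity) X
    have h3 := h (X + 1)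
    simp only [Nat.cast_one, div_one, mul_one] at h2
    have h4 := h3.trans h2
    nlinarith
  · intro N
    refine ⟨N, le_rfl, ?_⟩
    have h1 : c' * (N : ℝ) ≤ 0 :=
      mul_nonpos_of_nonpos_of_nonneg (by linarith) (Nat.cast_nonneg _)
    exact h1.trans (Nat.cast_nonneg _)

/-- **Lower bound by degrees.** -/
theorem le_dl_of_deg {α c : ℝ}
    (hc : ∀ (P : Finset ℕ) (e : ℕ → ℕ), (∀ p ∈ P, p.Prime ∧ ¬ Fr α p (e p)) →
      c ≤ ∏ p ∈ P, (1 - 1 / (p : ℝ) ^ (e p)))
    {F : Finset ℕ} (hF : (F : Set ℕ) ⊆ Dp α) : c ≤ dl F := by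
  classical
  refine le_dl (T := TF α) (linearIndepOn_TF α) (UD_of_log fun X => ?_) hF
  -- the exponents
  let e : ℕ → ℕ := fun p => sInf {k | ¬ Fr α p k}
  let P : Finset ℕ := (range (X + 1)).filter (fun p => p.Prime ∧ ∃ k, ¬ Fr α p k)
  have he : ∀ p ∈ P, p.Prime ∧ ¬ Fr α p (e p) := by
    intro p hp
    obtain ⟨_, h1, h2⟩ := mem_filter.1 hp
    exact ⟨h1, Nat.sInf_mem (s := {k | ¬ Fr α p k}) h2⟩
  have he1 : ∀ p ∈ P, 1 ≤ e p := by
    intro p hp
    by_contra h
    have h0 : e p = 0 := by omega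
    apply (he p hp).2
    rw [h0]
    intro f hf hf0
    rw [eq_C_of_natDegree_le_zero hf, aeval_C] at hf0
    rw [eq_C_of_natDegree_le_zero hf]
    have : f.coeff 0 = 0 := by
      have h3 := hf0
      exact (map_eq_zero _).1 h3
    rw [this, map_zero]
  have hinj : Set.InjOn (fun p => p ^ e p) P := by
    intro p hp q hq hpq
    have h1 : p ∣ q ^ e q := by
      have : p ∣ p ^ e p := dvd_pow_self p (by have := he1 p hp; omega)
      simp only at hpq
      rwa [hpq] at this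
    have h2 := (he p hp).1.dvd_of_dvd_pow h1
    exact (Nat.prime_dvd_prime_iff_eq (he p hp).1 (he q hq).1).1 h2
  have h1 := hs_ge (P.image (fun p => p ^ e p)) X (by
    intro b hb
    obtain ⟨p, hp, rfl⟩ := mem_image.1 hb
    have h2 : p ≤ p ^ e p := Nat.le_self_pow (by have := he1 p hp; omega) p
    exact (he p hp).1.two_le.trans h2)
  rw [prod_image hinj] at h1
  have h2 := hc P e he
  have h3 : ∏ p ∈ P, (1 - 1 / (p : ℝ) ^ (e p)) = ∏ p ∈ P, (1 - 1 / ((p ^ e p : ℕ) : ℝ)) := by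
    refine prod_congr rfl fun p _ => ?_
    rw [Nat.cast_pow]
  rw [h3] at h2
  have h4 : (0 : ℝ) ≤ ∑ n ∈ Icc 1 X, (1 : ℝ) / n := sum_nonneg fun n _ => by positivity
  refine (mul_le_mul_of_nonneg_right h2 h4).trans (h1.trans ?_)
  unfold hs
  refine sum_le_sum_of_subset_of_nonneg ?_ fun n _ _ => by positivity
  intro n hn
  obtain ⟨hn1, hn2⟩ := mem_filter.1 hn
  refine mem_filter.2 ⟨hn1, ?_⟩
  rw [mem_Icc] at hn1
  refine ⟨hn1.1, fun p k hp hpk => ?_⟩
  by_contra hk
  have hek : e p ≤ k := Nat.sInf_le hk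
  have hk0 : k ≠ 0 := by
    rintro rfl
    apply hk
    intro f hf hf0
    rw [eq_C_of_natDegree_le_zero hf, aeval_C] at hf0
    rw [eq_C_of_natDegree_le_zero hf]
    have : f.coeff 0 = 0 := (map_eq_zero _).1 hf0
    rw [this, map_zero]
  have hpn : p ≤ n := Nat.le_of_dvd (by omega) ((dvd_pow_self p hk0).trans hpk)
  have hpP : p ∈ P := mem_filter.2 ⟨mem_range.2 (by omega), hp, k, hk⟩
  exact hn2 (p ^ e p) (mem_image_of_mem _ hpP) ((pow_dvd_pow p hek).trans hpk)

end Pool.Agent.helper60.PC
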